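import Mathlib
set_option autoImplicit false

/-!
# Integral cubic polynomials with small discriminant

Outline.  A cubic polynomial `a x^3 + b x^2 + c x + d` is identified with the binary form
`F = (a, b, c, d)`.

* Normal form (`exists_nf`): `F = lam * s (r^2 - ep s^2 / 4)` with `ep = 1` or `-1`, real linear
  forms `r`, `s` of determinant 1 and `lam ^ 4 = |disc F|`.
* Counting representations (`basis_count`): for a fixed form `F` of normal form parameter `lam`, the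
  number of bases `(t1, t2)` of `Z^2` such that the coefficients of `F (x t1 + y t2)` are at most
  `|lam| ρ^3` in absolute value is at most `10 (1488 ρ^2 + 8)`.  The larger basis vector `t` either
  lies in a disc of radius of order `ρ`, or in a thin sector around one of the real zeros of `F`;
  primitive points in a sector are counted with triangles (`prim_count`) and dyadic shells, and the
  other basis vector is determined up to few choices.
* Reduction (`exists_reduced`, `comp_mem_box`): every form of level `(i, j)` (`|lam|` of size `2^i`,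
  first minimum of the lattice of size `2^(-j)`) is equivalent to `4^j` forms in a box of volume of
  order `16^i`.  Irreducibility gives `8^j ≤ 20 * 2^i`, so the box has `O(16^i)` integral points.
* Summation over all levels (`total`).
-/

namespace Pool.Agent.Results.MP_3ef321_nt.Cubic

section

/-- Determinant of two integer vectors. -/
def det (u v : ℤ × ℤ) : ℤ := u.1 * v.2 - u.2 * v.1

theorem det_self (u : ℤ × ℤ) : det u u = 0 := by unfold det; ring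

theorem exists_mul_of_det_eq_zero {u w : ℤ × ℤ} (hu : Int.gcd u.1 u.2 = 1) (h : det u w = 0) :
    ∃ k : ℤ, w = (k * u.1, k * u.2) := by
  obtain ⟨x, y⟩ := u
  obtain ⟨a, b⟩ := w
  simp only [det] at h hu
  have hb : (1 : ℤ) = x * Int.gcdA x y + y * Int.gcdB x y := by
    have := Int.gcd_eq_gcd_ab x y
    rw [hu] at this
    exact_mod_cast this
  refine ⟨a * Int.gcdA x y + b * Int.gcdB x y, ?_⟩
  have h1 : x * b = y * a := by linarith
  ext
  · show a = (a * Int.gcdA x y + b * Int.gcdB x y) * x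
    calc a = a * (x * Int.gcdA x y + y * Int.gcdB x y) := by rw [← hb, mul_one]
      _ = a * Int.gcdA x y * x + (y * a) * Int.gcdB x y := by ring
      _ = a * Int.gcdA x y * x + (x * b) * Int.gcdB x y := by rw [h1]
      _ = _ := by ring
  · show b = (a * Int.gcdA x y + b * Int.gcdB x y) * y
    calc b = b * (x * Int.gcdA x y + y * Int.gcdB x y) := by rw [← hb, mul_one]
      _ = (x * b) * Int.gcdA x y + b * Int.gcdB x y * y := by ring
      _ = (y * a) * Int.gcdA x y + b * Int.gcdB x y * y := by rw [h1]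
      _ = _ := by ring

theorem prim_count (S : Finset (ℤ × ℤ)) (M : ℕ) (hprim : ∀ u ∈ S, Int.gcd u.1 u.2 = 1)
    (hdet : ∀ u ∈ S, ∀ v ∈ S, |det u v| ≤ M) : S.card ≤ 12 * M + 2 := by
  classical
  rcases S.eq_empty_or_nonempty with rfl | hne
  · simp
  obtain ⟨u0, hu0⟩ := hne
  obtain ⟨v0, hv0, hmax⟩ := S.exists_max_image (fun v => |det u0 v|) ⟨u0, hu0⟩
  set m := |det u0 v0| with hm
  rcases (abs_nonneg (det u0 v0)).eq_or_lt with h0 | hpos
  · -- all parallel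
    have hsub : S ⊆ {u0, (-u0.1, -u0.2)} := by
      intro v hv
      have h1 : det u0 v = 0 := by
        have := hmax v hv
        rw [hm, ← h0] at this
        exact abs_nonpos_iff.mp this
      obtain ⟨k, rfl⟩ := exists_mul_of_det_eq_zero (hprim u0 hu0) h1
      have hg := hprim _ hv
      simp only at hg
      rw [Int.gcd_mul_left, hprim u0 hu0, mul_one] at hg
      rcases Int.natAbs_eq k with hk | hk
      · rw [hg] at hk
        subst hk
        simp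
      · rw [hg] at hk
        subst hk
        simp
    calc S.card ≤ ({u0, (-u0.1, -u0.2)} : Finset (ℤ × ℤ)).card := Finset.card_le_card hsub
      _ ≤ 2 := Finset.card_le_two
      _ ≤ 12 * M + 2 := by omega
  · have hmM : m ≤ M := hdet u0 hu0 v0 hv0
    have hm1 : 1 ≤ m := hpos
    let f : ℤ × ℤ → ℤ × ℤ := fun v => (det u0 v, det v v0 / m)
    have hinj : Set.InjOn f S := by
      intro v hv w hw hfw
      simp only [f, Prod.mk.injEq] at hfw
      obtain ⟨h1, h2⟩ := hfw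
      have h3 : det u0 (w.1 - v.1, w.2 - v.2) = 0 := by
        have : det u0 (w.1 - v.1, w.2 - v.2) = det u0 w - det u0 v := by unfold det; ring
        rw [this, h1, sub_self]
      obtain ⟨k, hk⟩ := exists_mul_of_det_eq_zero (hprim u0 hu0) h3
      have hk1 : w.1 - v.1 = k * u0.1 := congrArg Prod.fst hk
      have hk2 : w.2 - v.2 = k * u0.2 := congrArg Prod.snd hk
      have h4 : det w v0 = det v v0 + k * det u0 v0 := by
        have e1 : w.1 = v.1 + k * u0.1 := by linarith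
        have e2 : w.2 = v.2 + k * u0.2 := by linarith
        unfold det
        rw [e1, e2]; ring
      have h5 : |det w v0 - det v v0| < m := by
        have a1 := Int.emod_add_mul_ediv (det w v0) m
        have a2 := Int.emod_add_mul_ediv (det v v0) m
        have b1 := Int.emod_nonneg (det w v0) (by omega : m ≠ 0)
        have b2 := Int.emod_nonneg (det v v0) (by omega : m ≠ 0)
        have c1 := Int.emod_lt_of_pos (det w v0) (by omega : 0 < m)
        have c2 := Int.emod_lt_of_pos (det v v0) (by omega : 0 < m)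
        rw [abs_lt]
        rw [← h2] at a1
        constructor <;> linarith
      have h6 : k = 0 := by
        by_contra hk0
        have : 1 ≤ |k| := Int.one_le_abs hk0
        rw [h4, add_sub_cancel_left, abs_mul, ← hm] at h5
        nlinarith
      subst h6
      ext
      · linarith
      · linarith
    have hmaps : ∀ v ∈ S, f v ∈ (Finset.Icc (-m) m) ×ˢ (Finset.Icc (-(M / m + 1)) (M / m)) := by
      intro v hv
      rw [Finset.mem_product, Finset.mem_Icc, Finset.mem_Icc]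
      have h1 := abs_le.mp (hmax v hv)
      have h2 := abs_le.mp (hdet v hv v0 hv0)
      refine ⟨h1, ?_, ?_⟩
      · show -((M : ℤ) / m + 1) ≤ det v v0 / m
        rw [Int.le_ediv_iff_mul_le (by omega)]
        have h3 : (M : ℤ) < (M / m + 1) * m := Int.lt_ediv_add_one_mul_self _ (by omega)
        nlinarith
      · show det v v0 / m ≤ M / m
        exact Int.ediv_le_ediv (by omega) h2.2
    have hcard := Finset.card_le_card_of_injOn f hmaps hinj
    rw [Finset.card_product, Int.card_Icc, Int.card_Icc] at hcard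
    have e1 : ((m + 1 - -m).toNat : ℤ) = 2 * m + 1 := by
      rw [Int.toNat_of_nonneg (by omega)]; ring
    have hMm : (0 : ℤ) ≤ M / m := Int.ediv_nonneg (by omega) (by omega)
    have e2 : (((M : ℤ) / m + 1 - -((M : ℤ) / m + 1)).toNat : ℤ) = 2 * (M / m) + 2 := by
      rw [Int.toNat_of_nonneg (by omega)]; ring
    have h7 : (S.card : ℤ) ≤ (2 * m + 1) * (2 * (M / m) + 2) := by
      calc (S.card : ℤ) ≤ ((m + 1 - -m).toNat * ((M : ℤ) / m + 1 - -((M : ℤ) / m + 1)).toNat : ℕ) := by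
            exact_mod_cast hcard
        _ = (2 * m + 1) * (2 * (M / m) + 2) := by rw [Nat.cast_mul, e1, e2]
    have h8 : (M : ℤ) / m * m ≤ M := Int.ediv_mul_le _ (by omega)
    have h9 : (S.card : ℤ) ≤ 12 * M + 2 := by
      calc (S.card : ℤ) ≤ (2 * m + 1) * (2 * (M / m) + 2) := h7
        _ ≤ (3 * m) * (2 * (M / m) + 2) := by
            apply mul_le_mul_of_nonneg_right (by omega) (by omega)
        _ = 6 * (M / m * m) + 6 * m := by ring
        _ ≤ 6 * M + 6 * M := by linarith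
        _ ≤ 12 * M + 2 := by linarith
    exact_mod_cast h9

end

section

/-- Coefficients of a binary cubic form. -/
abbrev Form : Type := ℤ × ℤ × ℤ × ℤ

/-- Value of a form at a real vector. -/
def ev (F : Form) (x y : ℝ) : ℝ :=
  F.1 * x ^ 3 + F.2.1 * x ^ 2 * y + F.2.2.1 * x * y ^ 2 + F.2.2.2 * y ^ 3

/-- Value at an integer vector. -/
def evZ (F : Form) (u : ℤ × ℤ) : ℤ :=
  F.1 * u.1 ^ 3 + F.2.1 * u.1 ^ 2 * u.2 + F.2.2.1 * u.1 * u.2 ^ 2 + F.2.2.2 * u.2 ^ 3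

/-- Polarization: the coefficient of `x^2 y` of `F (x u + y v)`. -/
def tr (F : Form) (u v : ℤ × ℤ) : ℤ :=
  3 * F.1 * u.1 ^ 2 * v.1 + F.2.1 * (2 * u.1 * u.2 * v.1 + u.1 ^ 2 * v.2) +
    F.2.2.1 * (u.2 ^ 2 * v.1 + 2 * u.1 * u.2 * v.2) + 3 * F.2.2.2 * u.2 ^ 2 * v.2

/-- The form `F (x u + y v)`. -/
def comp (F : Form) (u v : ℤ × ℤ) : Form := (evZ F u, tr F u v, tr F v u, evZ F v)

theorem ev_int (F : Form) (u : ℤ × ℤ) : ev F u.1 u.2 = evZ F u := by
  unfold ev evZ; push_cast; ring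

theorem ev_comp (F : Form) (u v : ℤ × ℤ) (x y : ℝ) :
    ev (comp F u v) x y = ev F (x * u.1 + y * v.1) (x * u.2 + y * v.2) := by
  unfold ev comp evZ tr; push_cast; ring

theorem tr_eq (F : Form) (u v : ℤ × ℤ) :
    (tr F u v : ℝ) = (ev F (u.1 + v.1) (u.2 + v.2) - ev F (u.1 - v.1) (u.2 - v.2)) / 2 -
      ev F v.1 v.2 := by
  unfold ev tr; push_cast; ring

theorem comp_comp (F : Form) (w1 w2 u v : ℤ × ℤ) :
    comp (comp F w1 w2) u v = comp F (u.1 * w1.1 + u.2 * w2.1, u.1 * w1.2 + u.2 * w2.2)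
      (v.1 * w1.1 + v.2 * w2.1, v.1 * w1.2 + v.2 * w2.2) := by
  unfold comp evZ tr
  ext <;> ring

theorem comp_id (F : Form) : comp F (1, 0) (0, 1) = F := by
  obtain ⟨a, b, c, d⟩ := F
  unfold comp evZ tr
  ext <;> simp

theorem comp_inv (F : Form) (w1 w2 : ℤ × ℤ) (h : det w1 w2 = 1) :
    comp (comp F w1 w2) (w2.2, -w1.2) (-w2.1, w1.1) = F := by
  rw [comp_comp]
  have e1 : (w2.2 * w1.1 + -w1.2 * w2.1, w2.2 * w1.2 + -w1.2 * w2.2) = ((1, 0) : ℤ × ℤ) := by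
    unfold det at h
    ext
    · show w2.2 * w1.1 + -w1.2 * w2.1 = 1
      linarith
    · show w2.2 * w1.2 + -w1.2 * w2.2 = 0
      ring
  have e2 : (-w2.1 * w1.1 + w1.1 * w2.1, -w2.1 * w1.2 + w1.1 * w2.2) = ((0, 1) : ℤ × ℤ) := by
    unfold det at h
    ext
    · show -w2.1 * w1.1 + w1.1 * w2.1 = 0
      ring
    · show -w2.1 * w1.2 + w1.1 * w2.2 = 1
      linarith
  show comp F (w2.2 * w1.1 + -w1.2 * w2.1, w2.2 * w1.2 + -w1.2 * w2.2)
    (-w2.1 * w1.1 + w1.1 * w2.1, -w2.1 * w1.2 + w1.1 * w2.2) = F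
  rw [e1, e2, comp_id]

/-- Discriminant. -/
def disc (F : Form) : ℤ :=
  F.2.1 ^ 2 * F.2.2.1 ^ 2 - 4 * F.1 * F.2.2.1 ^ 3 - 4 * F.2.1 ^ 3 * F.2.2.2 -
    27 * F.1 ^ 2 * F.2.2.2 ^ 2 + 18 * F.1 * F.2.1 * F.2.2.1 * F.2.2.2

/-- Normal form: `F = lam * s (r^2 - ep s^2 / 4)` with `ep = 1` or `ep = -1` and real linear forms
`r`, `s` of determinant 1. -/
structure NF (F : Form) (lam r1 r2 s1 s2 ep : ℝ) : Prop where
  hep : ep = 1 ∨ ep = -1
  hdet : r1 * s2 - r2 * s1 = 1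
  hev : ∀ x y : ℝ, ev F x y =
    lam * ((s1 * x + s2 * y) * ((r1 * x + r2 * y) ^ 2 - ep / 4 * (s1 * x + s2 * y) ^ 2))

theorem NF.comp {F : Form} {lam r1 r2 s1 s2 ep : ℝ} (h : NF F lam r1 r2 s1 s2 ep)
    {u v : ℤ × ℤ} (huv : det u v = 1) :
    NF (comp F u v) lam (r1 * u.1 + r2 * u.2) (r1 * v.1 + r2 * v.2) (s1 * u.1 + s2 * u.2)
      (s1 * v.1 + s2 * v.2) ep := by
  refine ⟨h.hep, ?_, ?_⟩
  · have h1 : (u.1 : ℝ) * v.2 - u.2 * v.1 = 1 := by exact_mod_cast huv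
    calc _ = (r1 * s2 - r2 * s1) * ((u.1 : ℝ) * v.2 - u.2 * v.1) := by ring
      _ = 1 := by rw [h.hdet, h1, one_mul]
  · intro x y
    rw [ev_comp, h.hev]
    ring

/-- Value of `r` at an integer vector. -/
def lf (r1 r2 : ℝ) (u : ℤ × ℤ) : ℝ := r1 * u.1 + r2 * u.2

theorem NF.evZ_eq {F : Form} {lam r1 r2 s1 s2 ep : ℝ} (h : NF F lam r1 r2 s1 s2 ep)
    (u : ℤ × ℤ) : (evZ F u : ℝ) =
      lam * (lf s1 s2 u * (lf r1 r2 u ^ 2 - ep / 4 * lf s1 s2 u ^ 2)) := by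
  rw [← ev_int, h.hev]; rfl

theorem NF.tr_eq {F : Form} {lam r1 r2 s1 s2 ep : ℝ} (h : NF F lam r1 r2 s1 s2 ep)
    (u v : ℤ × ℤ) : (tr F u v : ℝ) =
      lam * (lf s1 s2 v * (lf r1 r2 u ^ 2 - ep / 4 * lf s1 s2 u ^ 2) +
        lf s1 s2 u * (2 * lf r1 r2 u * lf r1 r2 v - ep / 2 * lf s1 s2 u * lf s1 s2 v)) := by
  rw [Pool.Agent.Results.MP_3ef321_nt.Cubic.tr_eq, h.hev, h.hev, h.hev]
  unfold lf
  ring

theorem NF.det_eq {F : Form} {lam r1 r2 s1 s2 ep : ℝ} (h : NF F lam r1 r2 s1 s2 ep)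
    (u v : ℤ × ℤ) : (det u v : ℝ) = lf r1 r2 u * lf s1 s2 v - lf r1 r2 v * lf s1 s2 u := by
  have : ((det u v : ℤ) : ℝ) = (r1 * s2 - r2 * s1) * ((u.1 : ℝ) * v.2 - u.2 * v.1) := by
    rw [h.hdet, one_mul]; unfold det; push_cast; ring
  rw [this]; unfold lf; ring

/-- The squared norm attached to a normal form. -/
def nsq (r1 r2 s1 s2 : ℝ) (u : ℤ × ℤ) : ℝ := lf r1 r2 u ^ 2 + lf s1 s2 u ^ 2

theorem nsq_nonneg (r1 r2 s1 s2 : ℝ) (u : ℤ × ℤ) : 0 ≤ nsq r1 r2 s1 s2 u := by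
  unfold nsq; positivity

/-- The norm attached to a normal form. -/
noncomputable def nm (r1 r2 s1 s2 : ℝ) (u : ℤ × ℤ) : ℝ := Real.sqrt (nsq r1 r2 s1 s2 u)

theorem nm_nonneg (r1 r2 s1 s2 : ℝ) (u : ℤ × ℤ) : 0 ≤ nm r1 r2 s1 s2 u := Real.sqrt_nonneg _

theorem nm_sq (r1 r2 s1 s2 : ℝ) (u : ℤ × ℤ) :
    nm r1 r2 s1 s2 u ^ 2 = lf r1 r2 u ^ 2 + lf s1 s2 u ^ 2 :=
  Real.sq_sqrt (nsq_nonneg r1 r2 s1 s2 u)

theorem abs_r_le (r1 r2 s1 s2 : ℝ) (u : ℤ × ℤ) : |lf r1 r2 u| ≤ nm r1 r2 s1 s2 u := by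
  apply abs_le_of_sq_le_sq _ (nm_nonneg _ _ _ _ _)
  rw [nm_sq]; nlinarith [sq_nonneg (lf s1 s2 u)]

theorem abs_s_le (r1 r2 s1 s2 : ℝ) (u : ℤ × ℤ) : |lf s1 s2 u| ≤ nm r1 r2 s1 s2 u := by
  apply abs_le_of_sq_le_sq _ (nm_nonneg _ _ _ _ _)
  rw [nm_sq]; nlinarith [sq_nonneg (lf r1 r2 u)]

end

section

theorem sector_aux {l l' p p' h hd W X : ℝ} (hW : 0 < W) (h1 : |l * h| ≤ X) (h2 : W ^ 2 / 4 ≤ |h|)
    (h3 : |l' * h + l * hd| ≤ X) (h4 : |hd| ≤ 5 / 2 * W ^ 2) (h5 : |p| ≤ 9 / 8 * W)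
    (h6 : |p'| ≤ 9 / 8 * W) (h7 : |l * p' - l' * p| = 1) : |l| * W ^ 2 ≤ 4 * X ∧ W ≤ 54 * X := by
  have a1 : |l| * W ^ 2 ≤ 4 * X := by
    rw [abs_mul] at h1
    nlinarith [mul_le_mul_of_nonneg_left h2 (abs_nonneg l)]
  have a2 : |l'| * |h| ≤ 11 * X := by
    have e : l' * h = (l' * h + l * hd) - l * hd := by ring
    have : |l' * h| ≤ |l' * h + l * hd| + |l * hd| := by
      rw [e]; exact abs_sub _ _ |>.trans (by rw [← e])
    rw [abs_mul, abs_mul l hd] at this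
    nlinarith [mul_le_mul_of_nonneg_left h4 (abs_nonneg l)]
  have a3 : |l'| * W ^ 2 ≤ 44 * X := by
    nlinarith [mul_le_mul_of_nonneg_left h2 (abs_nonneg l')]
  refine ⟨a1, ?_⟩
  have a4 : 1 ≤ |l| * |p'| + |l'| * |p| := by
    rw [← h7, ← abs_mul, ← abs_mul]
    exact abs_sub _ _
  have a5 : 1 ≤ 9 / 8 * W * (|l| + |l'|) := by
    nlinarith [mul_le_mul_of_nonneg_left h6 (abs_nonneg l),
      mul_le_mul_of_nonneg_left h5 (abs_nonneg l')]
  have a6 : W ≤ 9 / 8 * (|l| * W ^ 2 + |l'| * W ^ 2) := by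
    have := mul_le_mul_of_nonneg_left a5 hW.le
    nlinarith
  linarith

/-- The three possible cusps. -/
inductive Cusp (r s W X : ℝ) : Prop
  | c0 : |s| * W ^ 2 ≤ 4 * X → Cusp r s W X
  | c1 : |r - s / 2| * W ^ 2 ≤ 4 * X → Cusp r s W X
  | c2 : |r + s / 2| * W ^ 2 ≤ 4 * X → Cusp r s W X

theorem abs_le_of_sq {x y : ℝ} (hy : 0 ≤ y) (h : x ^ 2 ≤ y ^ 2) : |x| ≤ y :=
  abs_le_of_sq_le_sq h hy

theorem sector {r s r' s' W X ep : ℝ} (hep : ep = 1 ∨ ep = -1) (hW : 0 < W)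
    (hWsq : W ^ 2 = r ^ 2 + s ^ 2) (hv : r' ^ 2 + s' ^ 2 ≤ W ^ 2)
    (hdet : |r * s' - r' * s| = 1) (hG : |s * (r ^ 2 - ep / 4 * s ^ 2)| ≤ X)
    (hT : |s' * (r ^ 2 - ep / 4 * s ^ 2) + s * (2 * r * r' - ep / 2 * s * s')| ≤ X) :
    Cusp r s W X ∧ W ≤ 54 * X := by
  have br : |r| ≤ W := abs_le_of_sq hW.le (by nlinarith [sq_nonneg s])
  have bs : |s| ≤ W := abs_le_of_sq hW.le (by nlinarith [sq_nonneg r])
  have br' : |r'| ≤ W := abs_le_of_sq hW.le (by nlinarith [sq_nonneg s'])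
  have bs' : |s'| ≤ W := abs_le_of_sq hW.le (by nlinarith [sq_nonneg r'])
  have prod : ∀ a b : ℝ, |a| ≤ W → |b| ≤ W → |a * b| ≤ W ^ 2 := by
    intro a b ha hb
    rw [abs_mul, pow_two]
    exact mul_le_mul ha hb (abs_nonneg _) hW.le
  have wk : ∀ a : ℝ, |a| ≤ W → |a| ≤ 9 / 8 * W := fun a ha => ha.trans (by linarith)
  have hd0 : ∀ e : ℝ, (e = 1 ∨ e = -1) → |2 * r * r' - e / 2 * s * s'| ≤ 5 / 2 * W ^ 2 := by
    intro e he
    have p1 := abs_le.mp (prod r r' br br')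
    have p2 := abs_le.mp (prod s s' bs bs')
    rw [abs_le]
    rcases he with rfl | rfl <;> constructor <;> nlinarith [p1.1, p1.2, p2.1, p2.2]
  have hdet2 : |s * r' - s' * r| = 1 := by
    rw [← hdet, ← abs_neg]; congr 1; ring
  rcases hep with rfl | rfl
  · -- three real roots
    by_cases hB : (r - s / 2) ^ 2 ≤ (r + s / 2) ^ 2 ∧ (r - s / 2) ^ 2 ≤ s ^ 2
    · have hh : W ^ 2 / 4 ≤ |s * (r + s / 2)| := by
        refine le_trans ?_ (le_abs_self _)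
        nlinarith [hB.1, hB.2]
      have k1 : |(r - s / 2) * (s * (r + s / 2))| ≤ X := by
        convert hG using 2; ring
      have k3 : |(r' - s' / 2) * (s * (r + s / 2)) +
          (r - s / 2) * (s' * (r + s / 2) + s * (r' + s' / 2))| ≤ X := by
        convert hT using 2; ring
      have b1 : |r + s / 2| ≤ 9 / 8 * W :=
        abs_le_of_sq (by linarith) (by nlinarith [sq_nonneg (r - 2 * s), sq_nonneg (r/2 - s)])
      have b2 : |r' + s' / 2| ≤ 9 / 8 * W :=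
        abs_le_of_sq (by linarith) (by nlinarith [sq_nonneg (r' - 2 * s'), sq_nonneg (r'/2 - s')])
      have k4 : |s' * (r + s / 2) + s * (r' + s' / 2)| ≤ 5 / 2 * W ^ 2 := by
        have q1 : |s' * (r + s / 2)| ≤ W * (9 / 8 * W) := by
          rw [abs_mul]; exact mul_le_mul bs' b1 (abs_nonneg _) hW.le
        have q2 : |s * (r' + s' / 2)| ≤ W * (9 / 8 * W) := by
          rw [abs_mul]; exact mul_le_mul bs b2 (abs_nonneg _) hW.le
        refine (abs_add_le _ _).trans ?_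
        nlinarith [sq_nonneg W]
      have k7 : |(r - s / 2) * s' - (r' - s' / 2) * s| = 1 := by
        rw [← hdet]; congr 1; ring
      obtain ⟨c1, c2⟩ := sector_aux hW k1 hh k3 k4 (wk s bs) (wk s' bs') k7
      exact ⟨Cusp.c1 c1, c2⟩
    · by_cases hC : (r + s / 2) ^ 2 ≤ (r - s / 2) ^ 2 ∧ (r + s / 2) ^ 2 ≤ s ^ 2
      · have hh : W ^ 2 / 4 ≤ |s * (r - s / 2)| := by
          rw [← abs_neg]
          refine le_trans ?_ (le_abs_self _)
          nlinarith [hC.1, hC.2]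
        have k1 : |(r + s / 2) * (s * (r - s / 2))| ≤ X := by
          convert hG using 2; ring
        have k3 : |(r' + s' / 2) * (s * (r - s / 2)) +
            (r + s / 2) * (s' * (r - s / 2) + s * (r' - s' / 2))| ≤ X := by
          convert hT using 2; ring
        have b1 : |r - s / 2| ≤ 9 / 8 * W :=
          abs_le_of_sq (by linarith) (by nlinarith [sq_nonneg (r + 2 * s), sq_nonneg (r/2 + s)])
        have b2 : |r' - s' / 2| ≤ 9 / 8 * W :=
          abs_le_of_sq (by linarith) (by nlinarith [sq_nonneg (r' + 2 * s'), sq_nonneg (r'/2 + s')])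
        have k4 : |s' * (r - s / 2) + s * (r' - s' / 2)| ≤ 5 / 2 * W ^ 2 := by
          have q1 : |s' * (r - s / 2)| ≤ W * (9 / 8 * W) := by
            rw [abs_mul]; exact mul_le_mul bs' b1 (abs_nonneg _) hW.le
          have q2 : |s * (r' - s' / 2)| ≤ W * (9 / 8 * W) := by
            rw [abs_mul]; exact mul_le_mul bs b2 (abs_nonneg _) hW.le
          refine (abs_add_le _ _).trans ?_
          nlinarith [sq_nonneg W]
        have k7 : |(r + s / 2) * s' - (r' + s' / 2) * s| = 1 := by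
          rw [← hdet]; congr 1; ring
        obtain ⟨c1, c2⟩ := sector_aux hW k1 hh k3 k4 (wk s bs) (wk s' bs') k7
        exact ⟨Cusp.c2 c1, c2⟩
      · have hs1 : s ^ 2 ≤ (r - s / 2) ^ 2 := by
          by_contra hno
          push Not at hno
          rcases le_total ((r - s / 2) ^ 2) ((r + s / 2) ^ 2) with h | h
          · exact hB ⟨h, hno.le⟩
          · exact hC ⟨h, h.trans hno.le⟩
        have hs2 : s ^ 2 ≤ (r + s / 2) ^ 2 := by
          by_contra hno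
          push Not at hno
          rcases le_total ((r - s / 2) ^ 2) ((r + s / 2) ^ 2) with h | h
          · exact hB ⟨h, h.trans hno.le⟩
          · exact hC ⟨h, hno.le⟩
        have hh : W ^ 2 / 4 ≤ |r ^ 2 - 1 / 4 * s ^ 2| := by
          refine le_trans ?_ (le_abs_self _)
          nlinarith [hs1, hs2]
        obtain ⟨c1, c2⟩ := sector_aux hW hG hh hT (hd0 1 (Or.inl rfl)) (wk r br) (wk r' br') hdet2
        exact ⟨Cusp.c0 c1, c2⟩
  · have hh : W ^ 2 / 4 ≤ |r ^ 2 - -1 / 4 * s ^ 2| := by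
      refine le_trans ?_ (le_abs_self _)
      nlinarith [sq_nonneg r]
    obtain ⟨c1, c2⟩ := sector_aux hW hG hh hT (hd0 (-1) (Or.inr rfl)) (wk r br) (wk r' br') hdet2
    exact ⟨Cusp.c0 c1, c2⟩

end

section

theorem abs_det_le {r1 r2 s1 s2 : ℝ} (hdet : r1 * s2 - r2 * s1 = 1) (u v : ℤ × ℤ) :
    |(det u v : ℝ)| ≤ nm r1 r2 s1 s2 u * nm r1 r2 s1 s2 v := by
  have e : ((det u v : ℤ) : ℝ) = lf r1 r2 u * lf s1 s2 v - lf r1 r2 v * lf s1 s2 u := by
    have : ((det u v : ℤ) : ℝ) = (r1 * s2 - r2 * s1) * ((u.1 : ℝ) * v.2 - u.2 * v.1) := by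
      rw [hdet, one_mul]; unfold det; push_cast; ring
    rw [this]; unfold lf; ring
  apply abs_le_of_sq (mul_nonneg (nm_nonneg _ _ _ _ _) (nm_nonneg _ _ _ _ _))
  rw [mul_pow, nm_sq, nm_sq, e]
  nlinarith [sq_nonneg (lf r1 r2 u * lf r1 r2 v + lf s1 s2 u * lf s1 s2 v)]

theorem card_le_of_real {S : Finset (ℤ × ℤ)} {Z : ℝ} (hZ : 0 ≤ Z)
    (hprim : ∀ u ∈ S, Int.gcd u.1 u.2 = 1)
    (hdet : ∀ u ∈ S, ∀ v ∈ S, |(det u v : ℝ)| ≤ Z) : (S.card : ℝ) ≤ 12 * Z + 2 := by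
  have h := prim_count S ⌊Z⌋₊ hprim (by
    intro u hu v hv
    have h1 := hdet u hu v hv
    have h2 : ((|det u v|.toNat : ℕ) : ℝ) ≤ Z := by
      have e : ((|det u v|.toNat : ℕ) : ℤ) = |det u v| := Int.toNat_of_nonneg (abs_nonneg _)
      have e2 : ((|det u v|.toNat : ℕ) : ℝ) = ((|det u v| : ℤ) : ℝ) := by
        have := congrArg (Int.cast : ℤ → ℝ) e
        rwa [Int.cast_natCast] at this
      rw [e2]; push_cast; exact h1
    have h3 : |det u v|.toNat ≤ ⌊Z⌋₊ := Nat.le_floor h2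
    have e : ((|det u v|.toNat : ℕ) : ℤ) = |det u v| := Int.toNat_of_nonneg (abs_nonneg _)
    rw [← e]
    exact_mod_cast h3)
  calc (S.card : ℝ) ≤ ((12 * ⌊Z⌋₊ + 2 : ℕ) : ℝ) := by exact_mod_cast h
    _ = 12 * (⌊Z⌋₊ : ℝ) + 2 := by push_cast; ring
    _ ≤ 12 * Z + 2 := by have := Nat.floor_le hZ; linarith

theorem shell_count {r1 r2 s1 s2 : ℝ} {S : Finset (ℤ × ℤ)} (L P : ℤ × ℤ → ℝ) (ρ : ℝ)
    (hρ : 0 < ρ) (j : ℕ)
    (hLP : ∀ u v, |(det u v : ℝ)| = |L u * P v - L v * P u|)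
    (hP : ∀ u, |P u| ≤ nm r1 r2 s1 s2 u)
    (hprim : ∀ u ∈ S, Int.gcd u.1 u.2 = 1)
    (h1 : ∀ u ∈ S, |L u| * nm r1 r2 s1 s2 u ^ 2 ≤ 4 * ρ ^ 3)
    (h2 : ∀ u ∈ S, 2 ^ j * ρ ≤ nm r1 r2 s1 s2 u)
    (h3 : ∀ u ∈ S, nm r1 r2 s1 s2 u ≤ 2 ^ (j+1) * ρ) :
    (S.card : ℝ) ≤ 192 * ρ ^ 2 / 2 ^ j + 2 := by
  have hj : (0 : ℝ) < 2 ^ j := by positivity
  have hL : ∀ u ∈ S, |L u| ≤ 4 * ρ / (2 ^ j) ^ 2 := by
    intro u hu
    rw [le_div_iff₀ (by positivity)]
    have a1 := h1 u hu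
    have a2 : (2 ^ j * ρ) ^ 2 ≤ nm r1 r2 s1 s2 u ^ 2 :=
      pow_le_pow_left₀ (by positivity) (h2 u hu) 2
    have a3 : |L u| * (2 ^ j * ρ) ^ 2 ≤ 4 * ρ ^ 3 :=
      (mul_le_mul_of_nonneg_left a2 (abs_nonneg _)).trans a1
    have a4 : (|L u| * (2 ^ j) ^ 2) * ρ ^ 2 ≤ (4 * ρ) * ρ ^ 2 := by nlinarith
    exact le_of_mul_le_mul_right a4 (by positivity)
  have hPS : ∀ u ∈ S, |P u| ≤ 2 * 2 ^ j * ρ := by
    intro u hu
    refine (hP u).trans ((h3 u hu).trans (le_of_eq ?_))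
    rw [pow_succ]; ring
  have key : ∀ u ∈ S, ∀ v ∈ S, |(det u v : ℝ)| ≤ 16 * ρ ^ 2 / 2 ^ j := by
    intro u hu v hv
    rw [hLP]
    have b1 : |L u * P v| ≤ 8 * ρ ^ 2 / 2 ^ j := by
      rw [abs_mul]
      calc |L u| * |P v| ≤ (4 * ρ / (2 ^ j) ^ 2) * (2 * 2 ^ j * ρ) :=
            mul_le_mul (hL u hu) (hPS v hv) (abs_nonneg _) (by positivity)
        _ = 8 * ρ ^ 2 / 2 ^ j := by field_simp; ring
    have b2 : |L v * P u| ≤ 8 * ρ ^ 2 / 2 ^ j := by
      rw [abs_mul]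
      calc |L v| * |P u| ≤ (4 * ρ / (2 ^ j) ^ 2) * (2 * 2 ^ j * ρ) :=
            mul_le_mul (hL v hv) (hPS u hu) (abs_nonneg _) (by positivity)
        _ = 8 * ρ ^ 2 / 2 ^ j := by field_simp; ring
    calc |L u * P v - L v * P u| ≤ |L u * P v| + |L v * P u| := abs_sub _ _
      _ ≤ 8 * ρ ^ 2 / 2 ^ j + 8 * ρ ^ 2 / 2 ^ j := add_le_add b1 b2
      _ = 16 * ρ ^ 2 / 2 ^ j := by ring
  have := card_le_of_real (by positivity) hprim key
  calc (S.card : ℝ) ≤ 12 * (16 * ρ ^ 2 / 2 ^ j) + 2 := this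
    _ = 192 * ρ ^ 2 / 2 ^ j + 2 := by ring

theorem geom_bound (J : ℕ) : ∑ j ∈ Finset.range J, (1 : ℝ) / 2 ^ j ≤ 2 := by
  have h : ∀ n : ℕ, ∑ j ∈ Finset.range n, (1 : ℝ) / 2 ^ j = 2 - 2 / 2 ^ n := by
    intro n
    induction n with
    | zero => simp
    | succ n ih =>
      rw [Finset.sum_range_succ, ih, pow_succ]
      have : (2 : ℝ) ^ n ≠ 0 := by positivity
      field_simp
      ring
  rw [h]
  have : (0 : ℝ) ≤ 2 / 2 ^ J := by positivity
  linarith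

/-- Number of large vectors. -/
theorem big_count {r1 r2 s1 s2 : ℝ} (hdet : r1 * s2 - r2 * s1 = 1) (ρ : ℝ) (hρ : 0 < ρ)
    (B : Finset (ℤ × ℤ)) (hprim : ∀ u ∈ B, Int.gcd u.1 u.2 = 1)
    (hc : ∀ u ∈ B, Cusp (lf r1 r2 u) (lf s1 s2 u) (nm r1 r2 s1 s2 u) (ρ ^ 3))
    (hn : ∀ u ∈ B, nm r1 r2 s1 s2 u ≤ 54 * ρ ^ 3) : (B.card : ℝ) ≤ 1488 * ρ ^ 2 + 8 := by
  classical
  set N := nm r1 r2 s1 s2 with hN
  have dete : ∀ u v : ℤ × ℤ, ((det u v : ℤ) : ℝ) =
      lf r1 r2 u * lf s1 s2 v - lf r1 r2 v * lf s1 s2 u := by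
    intro u v
    have : ((det u v : ℤ) : ℝ) = (r1 * s2 - r2 * s1) * ((u.1 : ℝ) * v.2 - u.2 * v.1) := by
      rw [hdet, one_mul]; unfold det; push_cast; ring
    rw [this]; unfold lf; ring
  let J := ⌈54 * ρ ^ 2⌉₊
  let Bb := B.filter (fun u => N u ≤ ρ)
  let Sh : (ℤ × ℤ → ℝ) → ℕ → Finset (ℤ × ℤ) := fun L j =>
    B.filter (fun u => |L u| * N u ^ 2 ≤ 4 * ρ ^ 3 ∧ 2 ^ j * ρ ≤ N u ∧ N u ≤ 2 ^ (j+1) * ρ)
  let L0 : ℤ × ℤ → ℝ := fun u => lf s1 s2 u
  let L1 : ℤ × ℤ → ℝ := fun u => lf r1 r2 u - lf s1 s2 u / 2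
  let L2 : ℤ × ℤ → ℝ := fun u => lf r1 r2 u + lf s1 s2 u / 2
  have hsub : B ⊆ Bb ∪ (Finset.range J).biUnion (fun j => Sh L0 j ∪ (Sh L1 j ∪ Sh L2 j)) := by
    intro u hu
    by_cases hle : N u ≤ ρ
    · exact Finset.mem_union_left _ (Finset.mem_filter.mpr ⟨hu, hle⟩)
    · push Not at hle
      apply Finset.mem_union_right
      have hx : 1 ≤ N u / ρ := by rw [le_div_iff₀ hρ]; linarith
      obtain ⟨j, hj1, hj2⟩ := exists_nat_pow_near hx (by norm_num : (1 : ℝ) < 2)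
      rw [le_div_iff₀ hρ] at hj1
      rw [div_lt_iff₀ hρ] at hj2
      have hjJ : j < J := by
        have a1 : (2 : ℝ) ^ j * ρ ≤ (54 * ρ ^ 2) * ρ := by
          have := hn u hu
          calc (2 : ℝ) ^ j * ρ ≤ N u := hj1
            _ ≤ 54 * ρ ^ 3 := this
            _ = _ := by ring
        have a2 : (2 : ℝ) ^ j ≤ 54 * ρ ^ 2 := le_of_mul_le_mul_right a1 hρ
        have a3 : ((2 ^ j : ℕ) : ℝ) ≤ J := by
          push_cast
          exact a2.trans (Nat.le_ceil _)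
        have a4 : 2 ^ j ≤ J := by exact_mod_cast a3
        exact lt_of_lt_of_le Nat.lt_two_pow_self a4
      rw [Finset.mem_biUnion]
      refine ⟨j, Finset.mem_range.mpr hjJ, ?_⟩
      rcases hc u hu with h | h | h
      · exact Finset.mem_union_left _ (Finset.mem_filter.mpr ⟨hu, h, hj1, hj2.le⟩)
      · exact Finset.mem_union_right _ (Finset.mem_union_left _
          (Finset.mem_filter.mpr ⟨hu, h, hj1, hj2.le⟩))
      · exact Finset.mem_union_right _ (Finset.mem_union_right _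
          (Finset.mem_filter.mpr ⟨hu, h, hj1, hj2.le⟩))
  have cb : (Bb.card : ℝ) ≤ 12 * ρ ^ 2 + 2 := by
    apply card_le_of_real (by positivity)
    · intro u hu; exact hprim u (Finset.mem_filter.mp hu).1
    · intro u hu v hv
      refine (abs_det_le hdet u v).trans ?_
      rw [pow_two]
      exact mul_le_mul (Finset.mem_filter.mp hu).2 (Finset.mem_filter.mp hv).2
        (nm_nonneg _ _ _ _ _) hρ.le
  have csh : ∀ (L P : ℤ × ℤ → ℝ), (∀ u v, |(det u v : ℝ)| = |L u * P v - L v * P u|) →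
      (∀ u, |P u| ≤ N u) → ∀ j, ((Sh L j).card : ℝ) ≤ 192 * ρ ^ 2 / 2 ^ j + 2 := by
    intro L P hLP hP j
    refine shell_count (r1 := r1) (r2 := r2) (s1 := s1) (s2 := s2) L P ρ hρ j hLP hP
      (fun u hu => hprim u (Finset.mem_filter.mp hu).1)
      (fun u hu => (Finset.mem_filter.mp hu).2.1)
      (fun u hu => (Finset.mem_filter.mp hu).2.2.1)
      (fun u hu => (Finset.mem_filter.mp hu).2.2.2)
  have c0 := csh L0 (fun u => lf r1 r2 u) (by
    intro u v; rw [dete, ← abs_neg]; congr 1; simp only [L0]; ring)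
    (abs_r_le r1 r2 s1 s2)
  have c1 := csh L1 (fun u => lf s1 s2 u) (by
    intro u v; rw [dete]; congr 1; simp only [L1]; ring)
    (abs_s_le r1 r2 s1 s2)
  have c2 := csh L2 (fun u => lf s1 s2 u) (by
    intro u v; rw [dete]; congr 1; simp only [L2]; ring)
    (abs_s_le r1 r2 s1 s2)
  have hJ : (J : ℝ) ≤ 54 * ρ ^ 2 + 1 := (Nat.ceil_lt_add_one (by positivity)).le
  have csum : (((Finset.range J).biUnion (fun j => Sh L0 j ∪ (Sh L1 j ∪ Sh L2 j))).card : ℝ) ≤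
      ∑ j ∈ Finset.range J, (576 * ρ ^ 2 * (1 / 2 ^ j) + 6) := by
    calc (((Finset.range J).biUnion (fun j => Sh L0 j ∪ (Sh L1 j ∪ Sh L2 j))).card : ℝ)
        ≤ ((∑ j ∈ Finset.range J, (Sh L0 j ∪ (Sh L1 j ∪ Sh L2 j)).card : ℕ) : ℝ) := by
          exact_mod_cast Finset.card_biUnion_le
      _ = ∑ j ∈ Finset.range J, ((Sh L0 j ∪ (Sh L1 j ∪ Sh L2 j)).card : ℝ) := by push_cast; rfl
      _ ≤ ∑ j ∈ Finset.range J, (576 * ρ ^ 2 * (1 / 2 ^ j) + 6) := by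
          apply Finset.sum_le_sum
          intro j _
          have u1 : ((Sh L0 j ∪ (Sh L1 j ∪ Sh L2 j)).card : ℝ) ≤
              (Sh L0 j).card + ((Sh L1 j).card + (Sh L2 j).card) := by
            have a1 := Finset.card_union_le (Sh L0 j) (Sh L1 j ∪ Sh L2 j)
            have a2 := Finset.card_union_le (Sh L1 j) (Sh L2 j)
            have a3 : (Sh L0 j ∪ (Sh L1 j ∪ Sh L2 j)).card ≤
              (Sh L0 j).card + ((Sh L1 j).card + (Sh L2 j).card) := by omega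
            exact_mod_cast a3
          have e : 576 * ρ ^ 2 * (1 / 2 ^ j) + 6 = (192 * ρ ^ 2 / 2 ^ j + 2) +
              ((192 * ρ ^ 2 / 2 ^ j + 2) + (192 * ρ ^ 2 / 2 ^ j + 2)) := by ring
          rw [e]
          have := c0 j; have := c1 j; have := c2 j
          linarith
  have csum2 : ∑ j ∈ Finset.range J, (576 * ρ ^ 2 * (1 / 2 ^ j) + 6) ≤
      576 * ρ ^ 2 * 2 + 6 * J := by
    rw [Finset.sum_add_distrib, ← Finset.mul_sum, Finset.sum_const, Finset.card_range,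
      nsmul_eq_mul]
    have := mul_le_mul_of_nonneg_left (geom_bound J) (by positivity : 0 ≤ 576 * ρ ^ 2)
    linarith
  have ctot : (B.card : ℝ) ≤ Bb.card +
      ((Finset.range J).biUnion (fun j => Sh L0 j ∪ (Sh L1 j ∪ Sh L2 j))).card := by
    exact_mod_cast (Finset.card_le_card hsub).trans (Finset.card_union_le _ _)
  linarith

/-- At most five partners. -/
theorem partner_count {r1 r2 s1 s2 : ℝ} (hdet : r1 * s2 - r2 * s1 = 1) (u : ℤ × ℤ)
    (V : Finset (ℤ × ℤ)) (d : ℤ) (hd : d = 1 ∨ d = -1) (h1 : ∀ v ∈ V, det u v = d)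
    (h2 : ∀ v ∈ V, nm r1 r2 s1 s2 v ≤ nm r1 r2 s1 s2 u) : V.card ≤ 5 := by
  classical
  rcases V.eq_empty_or_nonempty with rfl | ⟨v0, hv0⟩
  · simp
  have hg : Int.gcd u.1 u.2 = 1 := by
    have := h1 v0 hv0
    unfold det at this
    rw [← Int.isCoprime_iff_gcd_eq_one]
    rcases hd with rfl | rfl
    · exact ⟨v0.2, -v0.1, by linarith⟩
    · exact ⟨-v0.2, v0.1, by linarith⟩
  have hpos : 0 < nm r1 r2 s1 s2 u := by
    by_contra hno
    have h0 : nm r1 r2 s1 s2 u = 0 := le_antisymm (not_lt.mp hno) (nm_nonneg _ _ _ _ _)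
    have a := abs_det_le hdet u v0
    rw [h0, zero_mul, h1 v0 hv0] at a
    rcases hd with rfl | rfl <;> norm_num at a
  have hsub : V ⊆ (Finset.Icc (-2 : ℤ) 2).image (fun k => (v0.1 + k * u.1, v0.2 + k * u.2)) := by
    intro v hv
    have h3 : det u (v.1 - v0.1, v.2 - v0.2) = 0 := by
      have : det u (v.1 - v0.1, v.2 - v0.2) = det u v - det u v0 := by unfold det; ring
      rw [this, h1 v hv, h1 v0 hv0, sub_self]
    obtain ⟨k, hk⟩ := exists_mul_of_det_eq_zero hg h3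
    have hk1 : v.1 - v0.1 = k * u.1 := congrArg Prod.fst hk
    have hk2 : v.2 - v0.2 = k * u.2 := congrArg Prod.snd hk
    have hk1' : (v.1 : ℝ) - v0.1 = k * u.1 := by exact_mod_cast hk1
    have hk2' : (v.2 : ℝ) - v0.2 = k * u.2 := by exact_mod_cast hk2
    rw [Finset.mem_image]
    refine ⟨k, ?_, ?_⟩
    · have e1 : lf r1 r2 v - lf r1 r2 v0 = k * lf r1 r2 u := by
        unfold lf
        linear_combination r1 * hk1' + r2 * hk2'
      have e2 : lf s1 s2 v - lf s1 s2 v0 = k * lf s1 s2 u := by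
        unfold lf
        linear_combination s1 * hk1' + s2 * hk2'
      have q0 := nm_sq r1 r2 s1 s2 u
      have q1 := nm_sq r1 r2 s1 s2 v
      have q2 := nm_sq r1 r2 s1 s2 v0
      have b1 : nm r1 r2 s1 s2 v ^ 2 ≤ nm r1 r2 s1 s2 u ^ 2 :=
        pow_le_pow_left₀ (nm_nonneg _ _ _ _ _) (h2 v hv) 2
      have b2 : nm r1 r2 s1 s2 v0 ^ 2 ≤ nm r1 r2 s1 s2 u ^ 2 :=
        pow_le_pow_left₀ (nm_nonneg _ _ _ _ _) (h2 v0 hv0) 2
      have b3 : (k : ℝ) ^ 2 * nm r1 r2 s1 s2 u ^ 2 ≤ 4 * nm r1 r2 s1 s2 u ^ 2 := by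
        have : (k : ℝ) ^ 2 * nm r1 r2 s1 s2 u ^ 2 =
            (lf r1 r2 v - lf r1 r2 v0) ^ 2 + (lf s1 s2 v - lf s1 s2 v0) ^ 2 := by
          rw [e1, e2, q0]; ring
        rw [this]
        nlinarith [sq_nonneg (lf r1 r2 v + lf r1 r2 v0), sq_nonneg (lf s1 s2 v + lf s1 s2 v0)]
      have b4 : (k : ℝ) ^ 2 ≤ 4 := le_of_mul_le_mul_right b3 (by positivity)
      have b5 : k ^ 2 ≤ 4 := by exact_mod_cast b4
      rw [Finset.mem_Icc]
      constructor <;> nlinarith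
    · ext
      · show v0.1 + k * u.1 = v.1
        linarith
      · show v0.2 + k * u.2 = v.2
        linarith
  calc V.card ≤ _ := Finset.card_le_card hsub
    _ ≤ (Finset.Icc (-2 : ℤ) 2).card := Finset.card_image_le
    _ = 5 := by decide

/-- The number of bases `(u,v)` with `F (x u + y v)` of height at most `|lam| ρ^3`. -/
theorem basis_count {F : Form} {lam r1 r2 s1 s2 ep : ℝ} (hF : NF F lam r1 r2 s1 s2 ep)
    (hlam : lam ≠ 0) (ρ : ℝ) (hρ : 0 < ρ) (T : Finset ((ℤ × ℤ) × (ℤ × ℤ)))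
    (h1 : ∀ p ∈ T, det p.1 p.2 = 1)
    (ha : ∀ p ∈ T, |(evZ F p.1 : ℝ)| ≤ |lam| * ρ ^ 3)
    (hb : ∀ p ∈ T, |(tr F p.1 p.2 : ℝ)| ≤ |lam| * ρ ^ 3)
    (hc : ∀ p ∈ T, |(tr F p.2 p.1 : ℝ)| ≤ |lam| * ρ ^ 3)
    (hd : ∀ p ∈ T, |(evZ F p.2 : ℝ)| ≤ |lam| * ρ ^ 3) :
    (T.card : ℝ) ≤ 10 * (1488 * ρ ^ 2 + 8) := by
  classical
  set N := nm r1 r2 s1 s2 with hN
  have hdet := hF.hdet
  have hlam' : 0 < |lam| := abs_pos.mpr hlam
  -- a single vector with a shorter partner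
  have key : ∀ u v : ℤ × ℤ, (det u v = 1 ∨ det u v = -1) → N v ≤ N u →
      |(evZ F u : ℝ)| ≤ |lam| * ρ ^ 3 → |(tr F u v : ℝ)| ≤ |lam| * ρ ^ 3 →
      Int.gcd u.1 u.2 = 1 ∧ Cusp (lf r1 r2 u) (lf s1 s2 u) (N u) (ρ ^ 3) ∧ N u ≤ 54 * ρ ^ 3 := by
    intro u v huv hvu he ht
    have hg : Int.gcd u.1 u.2 = 1 := by
      rw [← Int.isCoprime_iff_gcd_eq_one]
      unfold det at huv
      rcases huv with h | h
      · exact ⟨v.2, -v.1, by linarith⟩
      · exact ⟨-v.2, v.1, by linarith⟩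
    refine ⟨hg, ?_⟩
    have hab : |(det u v : ℝ)| = 1 := by
      rcases huv with h | h <;> rw [h] <;> norm_num
    have hpos : 0 < N u := by
      by_contra hno
      have h0 : N u = 0 := le_antisymm (not_lt.mp hno) (nm_nonneg _ _ _ _ _)
      have a := abs_det_le hdet u v
      rw [hab] at a
      have a2 : nm r1 r2 s1 s2 u = 0 := h0
      rw [a2, zero_mul] at a
      norm_num at a
    rw [hF.evZ_eq, abs_mul] at he
    rw [hF.tr_eq, abs_mul] at ht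
    have he' := le_of_mul_le_mul_left he hlam'
    have ht' := le_of_mul_le_mul_left ht hlam'
    refine sector (r' := lf r1 r2 v) (s' := lf s1 s2 v) hF.hep hpos (nm_sq _ _ _ _ _) ?_ ?_ he' ht'
    · rw [← nm_sq r1 r2 s1 s2 v]
      exact pow_le_pow_left₀ (nm_nonneg _ _ _ _ _) hvu 2
    · rw [← hF.det_eq]; exact hab
  let T1 := T.filter (fun p => N p.2 ≤ N p.1)
  let T2 := T.filter (fun p => ¬ N p.2 ≤ N p.1)
  have hT : T.card = T1.card + T2.card := (Finset.card_filter_add_card_filter_not _).symm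
  -- first part
  have hT1 : (T1.card : ℝ) ≤ 5 * (1488 * ρ ^ 2 + 8) := by
    have hfib : T1.card ≤ 5 * (T1.image Prod.fst).card := by
      apply Finset.card_le_mul_card_image
      intro u hu
      have : ((T1.filter (fun p => p.1 = u)).image Prod.snd).card ≤ 5 := by
        apply partner_count hdet u _ 1 (Or.inl rfl)
        · intro v hv
          obtain ⟨p, hp, rfl⟩ := Finset.mem_image.mp hv
          obtain ⟨hp1, rfl⟩ := Finset.mem_filter.mp hp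
          exact h1 p (Finset.mem_filter.mp hp1).1
        · intro v hv
          obtain ⟨p, hp, rfl⟩ := Finset.mem_image.mp hv
          obtain ⟨hp1, rfl⟩ := Finset.mem_filter.mp hp
          exact (Finset.mem_filter.mp hp1).2
      rwa [Finset.card_image_of_injOn] at this
      intro p hp q hq hpq
      have e1 := (Finset.mem_filter.mp hp).2
      have e2 := (Finset.mem_filter.mp hq).2
      exact Prod.ext (e1.trans e2.symm) hpq
    have hb1 := big_count hdet ρ hρ (T1.image Prod.fst)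
      (fun u hu => by
        obtain ⟨p, hp, rfl⟩ := Finset.mem_image.mp hu
        obtain ⟨hpT, hp2⟩ := Finset.mem_filter.mp hp
        exact (key p.1 p.2 (Or.inl (h1 p hpT)) hp2 (ha p hpT) (hb p hpT)).1)
      (fun u hu => by
        obtain ⟨p, hp, rfl⟩ := Finset.mem_image.mp hu
        obtain ⟨hpT, hp2⟩ := Finset.mem_filter.mp hp
        exact (key p.1 p.2 (Or.inl (h1 p hpT)) hp2 (ha p hpT) (hb p hpT)).2.1)
      (fun u hu => by
        obtain ⟨p, hp, rfl⟩ := Finset.mem_image.mp hu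
        obtain ⟨hpT, hp2⟩ := Finset.mem_filter.mp hp
        exact (key p.1 p.2 (Or.inl (h1 p hpT)) hp2 (ha p hpT) (hb p hpT)).2.2)
    have : (T1.card : ℝ) ≤ 5 * ((T1.image Prod.fst).card : ℝ) := by exact_mod_cast hfib
    linarith
  have hT2 : (T2.card : ℝ) ≤ 5 * (1488 * ρ ^ 2 + 8) := by
    have hneg : ∀ p ∈ T, det p.2 p.1 = -1 := by
      intro p hp
      have := h1 p hp
      unfold det at this ⊢
      linarith
    have hfib : T2.card ≤ 5 * (T2.image Prod.snd).card := by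
      apply Finset.card_le_mul_card_image
      intro u hu
      have : ((T2.filter (fun p => p.2 = u)).image Prod.fst).card ≤ 5 := by
        apply partner_count hdet u _ (-1) (Or.inr rfl)
        · intro v hv
          obtain ⟨p, hp, rfl⟩ := Finset.mem_image.mp hv
          obtain ⟨hp1, rfl⟩ := Finset.mem_filter.mp hp
          exact hneg p (Finset.mem_filter.mp hp1).1
        · intro v hv
          obtain ⟨p, hp, rfl⟩ := Finset.mem_image.mp hv
          obtain ⟨hp1, rfl⟩ := Finset.mem_filter.mp hp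
          exact (not_le.mp (Finset.mem_filter.mp hp1).2).le
      rwa [Finset.card_image_of_injOn] at this
      intro p hp q hq hpq
      have e1 := (Finset.mem_filter.mp hp).2
      have e2 := (Finset.mem_filter.mp hq).2
      exact Prod.ext hpq (e1.trans e2.symm)
    have hb1 := big_count hdet ρ hρ (T2.image Prod.snd)
      (fun u hu => by
        obtain ⟨p, hp, rfl⟩ := Finset.mem_image.mp hu
        obtain ⟨hpT, hp2⟩ := Finset.mem_filter.mp hp
        exact (key p.2 p.1 (Or.inr (hneg p hpT)) (not_le.mp hp2).le (hd p hpT) (hc p hpT)).1)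
      (fun u hu => by
        obtain ⟨p, hp, rfl⟩ := Finset.mem_image.mp hu
        obtain ⟨hpT, hp2⟩ := Finset.mem_filter.mp hp
        exact (key p.2 p.1 (Or.inr (hneg p hpT)) (not_le.mp hp2).le (hd p hpT) (hc p hpT)).2.1)
      (fun u hu => by
        obtain ⟨p, hp, rfl⟩ := Finset.mem_image.mp hu
        obtain ⟨hpT, hp2⟩ := Finset.mem_filter.mp hp
        exact (key p.2 p.1 (Or.inr (hneg p hpT)) (not_le.mp hp2).le (hd p hpT) (hc p hpT)).2.2)
    have : (T2.card : ℝ) ≤ 5 * ((T2.image Prod.snd).card : ℝ) := by exact_mod_cast hfib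
    linarith
  rw [hT]
  push_cast
  linarith

end

section

theorem nsq_pos {r1 r2 s1 s2 : ℝ} (hdet : r1 * s2 - r2 * s1 = 1) {w : ℤ × ℤ} (hw : w ≠ 0) :
    0 < nsq r1 r2 s1 s2 w := by
  by_contra hno
  have h0 : nsq r1 r2 s1 s2 w = 0 := le_antisymm (not_lt.mp hno) (nsq_nonneg _ _ _ _ _)
  unfold nsq at h0
  have h1 : lf r1 r2 w = 0 := by nlinarith [sq_nonneg (lf r1 r2 w), sq_nonneg (lf s1 s2 w)]
  have h2 : lf s1 s2 w = 0 := by nlinarith [sq_nonneg (lf r1 r2 w), sq_nonneg (lf s1 s2 w)]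
  unfold lf at h1 h2
  have e1 : (w.1 : ℝ) = 0 := by linear_combination (-(w.1 : ℝ)) * hdet + s2 * h1 - r2 * h2
  have e2 : (w.2 : ℝ) = 0 := by linear_combination (-(w.2 : ℝ)) * hdet - s1 * h1 + r1 * h2
  apply hw
  ext
  · exact_mod_cast e1
  · exact_mod_cast e2

theorem finite_ball {r1 r2 s1 s2 : ℝ} (hdet : r1 * s2 - r2 * s1 = 1) (B : ℝ) :
    {w : ℤ × ℤ | nsq r1 r2 s1 s2 w ≤ B}.Finite := by
  let K : ℤ := ⌈(|r1| + |r2| + |s1| + |s2|) * (1 + |B|)⌉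
  refine Set.Finite.subset ((Set.finite_Icc (-K) K).prod (Set.finite_Icc (-K) K)) ?_
  intro w hw
  have hw' : lf r1 r2 w ^ 2 + lf s1 s2 w ^ 2 ≤ B := hw
  have hB : 0 ≤ B := le_trans (by positivity) hw'
  have hBa : |B| = B := abs_of_nonneg hB
  have b1 : |lf r1 r2 w| ≤ 1 + B := abs_le_of_sq_le_sq (by nlinarith [sq_nonneg (lf s1 s2 w)])
    (by linarith)
  have b2 : |lf s1 s2 w| ≤ 1 + B := abs_le_of_sq_le_sq (by nlinarith [sq_nonneg (lf r1 r2 w)])
    (by linarith)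
  have e1 : (w.1 : ℝ) = s2 * lf r1 r2 w - r2 * lf s1 s2 w := by
    unfold lf; linear_combination (-(w.1 : ℝ)) * hdet
  have e2 : (w.2 : ℝ) = r1 * lf s1 s2 w - s1 * lf r1 r2 w := by
    unfold lf; linear_combination (-(w.2 : ℝ)) * hdet
  have hK : (|r1| + |r2| + |s1| + |s2|) * (1 + B) ≤ K := by
    calc (|r1| + |r2| + |s1| + |s2|) * (1 + B) = (|r1| + |r2| + |s1| + |s2|) * (1 + |B|) := by
          rw [hBa]
      _ ≤ K := Int.le_ceil _
  have c1 : |(w.1 : ℝ)| ≤ K := by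
    rw [e1]
    refine (abs_sub _ _).trans (le_trans ?_ hK)
    rw [abs_mul, abs_mul]
    nlinarith [mul_le_mul_of_nonneg_left b1 (abs_nonneg s2),
      mul_le_mul_of_nonneg_left b2 (abs_nonneg r2), abs_nonneg r1, abs_nonneg s1,
      mul_nonneg (abs_nonneg r1) (by linarith : 0 ≤ 1 + B),
      mul_nonneg (abs_nonneg s1) (by linarith : 0 ≤ 1 + B)]
  have c2 : |(w.2 : ℝ)| ≤ K := by
    rw [e2]
    refine (abs_sub _ _).trans (le_trans ?_ hK)
    rw [abs_mul, abs_mul]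
    nlinarith [mul_le_mul_of_nonneg_left b1 (abs_nonneg s1),
      mul_le_mul_of_nonneg_left b2 (abs_nonneg r1), abs_nonneg r2, abs_nonneg s2,
      mul_nonneg (abs_nonneg r2) (by linarith : 0 ≤ 1 + B),
      mul_nonneg (abs_nonneg s2) (by linarith : 0 ≤ 1 + B)]
  have d1 := abs_le.mp c1
  have d2 := abs_le.mp c2
  refine ⟨⟨?_, ?_⟩, ?_, ?_⟩
  · exact_mod_cast d1.1
  · exact_mod_cast d1.2
  · exact_mod_cast d2.1
  · exact_mod_cast d2.2

theorem exists_reduced {r1 r2 s1 s2 : ℝ} (hdet : r1 * s2 - r2 * s1 = 1) :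
    ∃ w1 w2 : ℤ × ℤ, det w1 w2 = 1 ∧ 0 < nsq r1 r2 s1 s2 w1 ∧
      nsq r1 r2 s1 s2 w1 ≤ nsq r1 r2 s1 s2 w2 ∧
      nsq r1 r2 s1 s2 w1 * nsq r1 r2 s1 s2 w2 ≤ 4 / 3 := by
  set q := nsq r1 r2 s1 s2 with hq
  have hfin : {w : ℤ × ℤ | w ≠ 0 ∧ q w ≤ q (1, 0)}.Finite :=
    (finite_ball hdet (q (1, 0))).subset (fun w hw => hw.2)
  obtain ⟨w1, hw1, hmin⟩ := Set.exists_min_image _ q hfin ⟨(1, 0), by simp, le_rfl⟩
  have hmin' : ∀ w : ℤ × ℤ, w ≠ 0 → q w1 ≤ q w := by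
    intro w hw
    by_cases h : q w ≤ q (1, 0)
    · exact hmin w ⟨hw, h⟩
    · exact hw1.2.trans (not_le.mp h).le
  have hpos : 0 < q w1 := nsq_pos hdet hw1.1
  have hg : Int.gcd w1.1 w1.2 = 1 := by
    by_contra hne
    have hg0 : Int.gcd w1.1 w1.2 ≠ 0 := by
      intro h0
      rw [Int.gcd_eq_zero_iff] at h0
      exact hw1.1 (Prod.ext h0.1 h0.2)
    set g := Int.gcd w1.1 w1.2 with hgd
    obtain ⟨a, ha⟩ := Int.gcd_dvd_left w1.1 w1.2
    obtain ⟨b, hb⟩ := Int.gcd_dvd_right w1.1 w1.2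
    rw [← hgd] at ha hb
    have hab : ((a, b) : ℤ × ℤ) ≠ 0 := by
      intro h
      have h1 : a = 0 := congrArg Prod.fst h
      have h2 : b = 0 := congrArg Prod.snd h
      rw [h1, mul_zero] at ha
      rw [h2, mul_zero] at hb
      exact hw1.1 (Prod.ext ha hb)
    have h1 := hmin' _ hab
    have ha' : (w1.1 : ℝ) = g * a := by exact_mod_cast ha
    have hb' : (w1.2 : ℝ) = g * b := by exact_mod_cast hb
    have h2 : q w1 = (g : ℝ) ^ 2 * q (a, b) := by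
      rw [hq]; unfold nsq lf; rw [ha', hb']; ring
    have h3 : (2 : ℝ) ≤ g := by
      have : 2 ≤ g := by omega
      exact_mod_cast this
    have h4 : 0 < q (a, b) := nsq_pos hdet hab
    have h5 : (4 : ℝ) ≤ (g : ℝ) ^ 2 := by nlinarith
    have h6 := mul_le_mul_of_nonneg_right h5 h4.le
    linarith
  have hcop : IsCoprime w1.1 w1.2 := Int.isCoprime_iff_gcd_eq_one.mpr hg
  obtain ⟨a, b, hab⟩ := hcop
  let v : ℤ × ℤ := (-b, a)
  have hv : det w1 v = 1 := by unfold det; simp only [v]; linarith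
  let I : ℤ × ℤ → ℝ := fun w => lf r1 r2 w1 * lf r1 r2 w + lf s1 s2 w1 * lf s1 s2 w
  let k : ℤ := -round (I v / q w1)
  let w2 : ℤ × ℤ := (v.1 + k * w1.1, v.2 + k * w1.2)
  have hdet2 : det w1 w2 = 1 := by
    have : det w1 w2 = det w1 v := by unfold det; simp only [w2]; ring
    rw [this, hv]
  have hI : I w2 = I v + k * q w1 := by
    simp only [I, w2, hq]; unfold nsq lf; push_cast; ring
  have hIle : |I w2| ≤ q w1 / 2 := by
    have h1 := abs_sub_round (I v / q w1)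
    have h2 : I w2 = (I v / q w1 - round (I v / q w1)) * q w1 := by
      rw [hI, sub_mul, div_mul_cancel₀ _ hpos.ne']
      simp only [k]; push_cast; ring
    rw [h2, abs_mul, abs_of_pos hpos]
    nlinarith
  have hw2 : w2 ≠ 0 := by
    intro h
    rw [h] at hdet2
    unfold det at hdet2
    simp at hdet2
  have hle := hmin' w2 hw2
  have hgram : q w1 * q w2 = I w2 ^ 2 + 1 := by
    have h1 : (((det w1 w2 : ℤ) : ℝ)) = 1 := by rw [hdet2]; norm_num
    have h2 : ((det w1 w2 : ℤ) : ℝ) = (r1 * s2 - r2 * s1) * ((w1.1 : ℝ) * w2.2 - w1.2 * w2.1) := by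
      rw [hdet, one_mul]; unfold det; push_cast; ring
    have h3 : lf r1 r2 w1 * lf s1 s2 w2 - lf r1 r2 w2 * lf s1 s2 w1 = 1 := by
      rw [← h1, h2]; unfold lf; ring
    have h4 : q w1 * q w2 = I w2 ^ 2 +
        (lf r1 r2 w1 * lf s1 s2 w2 - lf r1 r2 w2 * lf s1 s2 w1) ^ 2 := by
      simp only [hq, I]; unfold nsq; ring
    rw [h4, h3, one_pow]
  refine ⟨w1, w2, hdet2, hpos, hle, ?_⟩
  have h5 : I w2 ^ 2 ≤ (q w1 / 2) ^ 2 := by
    rw [← sq_abs]; exact pow_le_pow_left₀ (abs_nonneg _) hIle 2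
  nlinarith

theorem exists_real_root (a b c d : ℝ) (ha : a ≠ 0) :
    ∃ t : ℝ, a * t ^ 3 + b * t ^ 2 + c * t + d = 0 := by
  let f : ℝ → ℝ := fun t => a * t ^ 3 + b * t ^ 2 + c * t + d
  have hcont : Continuous f := by fun_prop
  let M : ℝ := 1 + (|b| + |c| + |d|) / |a|
  have hap : 0 < |a| := abs_pos.mpr ha
  have hM1 : 1 ≤ M := by
    have : 0 ≤ (|b| + |c| + |d|) / |a| := by positivity
    simp only [M]; linarith
  have hMa : |a| * M > |b| + |c| + |d| := by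
    have : |a| * M = |a| + (|b| + |c| + |d|) := by
      simp only [M]; field_simp
    rw [this]; linarith
  have hbig : |b * M ^ 2 + d| + |c * M| < |a| * M ^ 3 := by
    have h1 : |b * M ^ 2 + d| ≤ |b| * M ^ 2 + |d| := by
      refine (abs_add_le _ _).trans ?_
      rw [abs_mul, abs_of_nonneg (by positivity : 0 ≤ M ^ 2)]
    have h2 : |c * M| = |c| * M := by rw [abs_mul, abs_of_nonneg (by linarith : 0 ≤ M)]
    have h3 : |b| * M ^ 2 + |d| + |c| * M ≤ (|b| + |c| + |d|) * M ^ 2 := by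
      have m1 : M ≤ M ^ 2 := by nlinarith
      have m2 : 1 ≤ M ^ 2 := by nlinarith
      nlinarith [mul_le_mul_of_nonneg_left m1 (abs_nonneg c),
        mul_le_mul_of_nonneg_left m2 (abs_nonneg d)]
    have h4 : (|b| + |c| + |d|) * M ^ 2 < (|a| * M) * M ^ 2 :=
      mul_lt_mul_of_pos_right hMa (by positivity)
    rw [h2]
    calc |b * M ^ 2 + d| + |c| * M ≤ |b| * M ^ 2 + |d| + |c| * M := by linarith
      _ ≤ (|b| + |c| + |d|) * M ^ 2 := h3
      _ < (|a| * M) * M ^ 2 := h4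
      _ = |a| * M ^ 3 := by ring
  have hfM : f M = a * M ^ 3 + c * M + (b * M ^ 2 + d) := by simp only [f]; ring
  have hfM' : f (-M) = -(a * M ^ 3) - c * M + (b * M ^ 2 + d) := by simp only [f]; ring
  have q1 := abs_le.mp (le_refl |b * M ^ 2 + d|)
  have q2 := abs_le.mp (le_refl |c * M|)
  rcases lt_or_gt_of_ne ha with hneg | hpos
  · have haa : |a| = -a := abs_of_neg hneg
    rw [haa] at hbig
    have s1 : f M ≤ 0 := by rw [hfM]; nlinarith [q1.1, q1.2, q2.1, q2.2]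
    have s2 : 0 ≤ f (-M) := by rw [hfM']; nlinarith [q1.1, q1.2, q2.1, q2.2]
    have := intermediate_value_Icc' (by linarith : -M ≤ M) hcont.continuousOn
    obtain ⟨t, _, ht⟩ := this ⟨s1, s2⟩
    exact ⟨t, ht⟩
  · have haa : |a| = a := abs_of_pos hpos
    rw [haa] at hbig
    have s1 : 0 ≤ f M := by rw [hfM]; nlinarith [q1.1, q1.2, q2.1, q2.2]
    have s2 : f (-M) ≤ 0 := by rw [hfM']; nlinarith [q1.1, q1.2, q2.1, q2.2]
    have := intermediate_value_Icc (by linarith : -M ≤ M) hcont.continuousOn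
    obtain ⟨t, _, ht⟩ := this ⟨s2, s1⟩
    exact ⟨t, ht⟩

theorem exists_nf (F : Form) (ha : F.1 ≠ 0) (hD : disc F ≠ 0) :
    ∃ lam r1 r2 s1 s2 ep : ℝ, NF F lam r1 r2 s1 s2 ep ∧ |lam| ^ 4 = |(disc F : ℝ)| ∧ lam ≠ 0 := by
  obtain ⟨a, b, c, d⟩ := F
  simp only at ha
  obtain ⟨t, ht⟩ := exists_real_root a b c d (by exact_mod_cast ha)
  -- quadratic factor
  set A : ℝ := (a : ℝ) with hA
  set B : ℝ := b + a * t with hB
  set C : ℝ := c + b * t + a * t ^ 2 with hC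
  have hb : (b : ℝ) = B - A * t := by rw [hB, hA]; ring
  have hc : (c : ℝ) = C - B * t := by rw [hC, hB]; ring
  have hd : (d : ℝ) = -(C * t) := by rw [hC]; linarith
  set g : ℝ := A * t ^ 2 + B * t + C with hg
  set Δ : ℝ := B ^ 2 - 4 * A * C with hΔ
  have hdisc : (disc (a, b, c, d) : ℝ) = Δ * g ^ 2 := by
    unfold disc
    push_cast
    rw [hb, hc, hd, hΔ, hg]
    ring
  have hne : Δ * g ^ 2 ≠ 0 := by
    rw [← hdisc]; exact_mod_cast hD
  have hΔ0 : Δ ≠ 0 := left_ne_zero_of_mul hne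
  have hg0 : g ≠ 0 := fun h => right_ne_zero_of_mul hne (by rw [h]; ring)
  have hγ : 0 < |g| := abs_pos.mpr hg0
  have hδ : 0 < |Δ| := abs_pos.mpr hΔ0
  -- kappa^4 = |Δ| g^2
  set τ : ℝ := Real.sqrt |Δ| with hτ
  have hτpos : 0 < τ := Real.sqrt_pos.mpr hδ
  have hτ2 : τ ^ 2 = |Δ| := Real.sq_sqrt hδ.le
  set κ : ℝ := Real.sqrt (|g| * τ) with hκ
  have hκpos : 0 < κ := Real.sqrt_pos.mpr (by positivity)
  have hκ2 : κ ^ 2 = |g| * τ := Real.sq_sqrt (by positivity)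
  have hκ4 : κ ^ 4 = g ^ 2 * |Δ| := by
    have : κ ^ 4 = (κ ^ 2) ^ 2 := by ring
    rw [this, hκ2, mul_pow, sq_abs, hτ2]
  obtain ⟨σ, hσ, hσg⟩ : ∃ σ : ℝ, (σ = 1 ∨ σ = -1) ∧ g = σ * |g| := by
    rcases abs_choice g with h | h
    · exact ⟨1, Or.inl rfl, by rw [h]; ring⟩
    · exact ⟨-1, Or.inr rfl, by rw [h]; ring⟩
  obtain ⟨ep, hep, hepΔ⟩ : ∃ ep : ℝ, (ep = 1 ∨ ep = -1) ∧ Δ = ep * |Δ| := by
    rcases abs_choice Δ with h | h
    · exact ⟨1, Or.inl rfl, by rw [h]; ring⟩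
    · exact ⟨-1, Or.inr rfl, by rw [h]; ring⟩
  have hσ2 : σ ^ 2 = 1 := by rcases hσ with rfl | rfl <;> norm_num
  refine ⟨σ * κ, -σ / κ * (A * t + B / 2), -σ / κ * (B * t / 2 + C), κ / |g|, -(κ / |g|) * t, ep,
    ⟨hep, ?_, ?_⟩, ?_, ?_⟩
  · have e1 : -σ / κ * (A * t + B / 2) * (-(κ / |g|) * t) -
        -σ / κ * (B * t / 2 + C) * (κ / |g|) = σ * g / |g| := by
      rw [hg]; field_simp; ring
    rw [e1]
    nth_rewrite 1 [hσg]
    field_simp
    linarith [hσ2]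
  · intro x y
    have e0 : ev (a, b, c, d) x y = (x - t * y) * (A * x ^ 2 + B * x * y + C * y ^ 2) := by
      unfold ev
      simp only
      rw [hb, hc, hd]
      ring
    have e1 : (A * x ^ 2 + B * x * y + C * y ^ 2) * g =
        ((A * t + B / 2) * x + (B * t / 2 + C) * y) ^ 2 - Δ / 4 * (x - t * y) ^ 2 := by
      rw [hg, hΔ]; ring
    set m : ℝ := (A * t + B / 2) * x + (B * t / 2 + C) * y with hm
    set l : ℝ := x - t * y with hl
    have e2 : κ / |g| * x + -(κ / |g|) * t * y = κ / |g| * l := by rw [hl]; ring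
    have e3 : -σ / κ * (A * t + B / 2) * x + -σ / κ * (B * t / 2 + C) * y = -σ / κ * m := by
      rw [hm]; ring
    rw [e0, e2, e3]
    have e4 : A * x ^ 2 + B * x * y + C * y ^ 2 = (m ^ 2 - Δ / 4 * l ^ 2) / g := by
      rw [eq_div_iff hg0, e1]
    rw [e4]
    have hgi : 1 / g = σ / |g| := by
      nth_rewrite 1 [hσg]
      rcases hσ with rfl | rfl
      · simp
      · field_simp
    have e5 : σ * κ * (κ / |g| * l * ((-σ / κ * m) ^ 2 - ep / 4 * (κ / |g| * l) ^ 2)) =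
        σ / |g| * l * (σ ^ 2 * m ^ 2 - ep / 4 * (κ ^ 4 / |g| ^ 2) * l ^ 2) := by
      field_simp
    have e6 : κ ^ 4 / |g| ^ 2 = |Δ| := by
      rw [hκ4, sq_abs]; field_simp
    rw [e5, e6, hσ2, ← hgi]
    have e7 : ep / 4 * |Δ| = Δ / 4 := by linarith [hepΔ]
    rw [e7]
    ring
  · rw [hdisc, abs_mul, abs_mul, mul_pow, abs_of_pos hκpos, hκ4]
    have : |σ| = 1 := by rcases hσ with rfl | rfl <;> norm_num
    rw [this, one_pow, one_mul, abs_of_nonneg (sq_nonneg g)]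
    ring
  · have : σ ≠ 0 := by rcases hσ with rfl | rfl <;> norm_num
    exact mul_ne_zero this hκpos.ne'

end

section

/-- Height at most `Q`. -/
def HtLe (Q : ℝ) (F : Form) : Prop :=
  |(F.1 : ℝ)| ≤ Q ∧ |(F.2.1 : ℝ)| ≤ Q ∧ |(F.2.2.1 : ℝ)| ≤ Q ∧ |(F.2.2.2 : ℝ)| ≤ Q

/-- No nontrivial integer zero. -/
def NoZero (F : Form) : Prop := ∀ u : ℤ × ℤ, u ≠ 0 → evZ F u ≠ 0

/-- Level `(i,j)` with witnesses `w1`, `w2`. -/
def Lev (i j : ℕ) (F : Form) (w1 w2 : ℤ × ℤ) : Prop :=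
  ∃ lam r1 r2 s1 s2 ep : ℝ, NF F lam r1 r2 s1 s2 ep ∧ (2 : ℝ) ^ i ≤ |lam| ∧ |lam| ≤ 2 ^ (i+1) ∧
    det w1 w2 = 1 ∧ nm r1 r2 s1 s2 w1 ≤ 2 / 2 ^ j ∧ nm r1 r2 s1 s2 w2 ≤ 2 * 2 ^ j

theorem int_card_le (x : ℝ) (hx : 0 ≤ x) :
    ((Finset.Icc (-⌊x⌋) ⌊x⌋).card : ℝ) ≤ 2 * x + 1 := by
  rw [Int.card_Icc]
  have h0 : 0 ≤ ⌊x⌋ := Int.floor_nonneg.mpr hx
  have h1 : ((⌊x⌋ + 1 - -⌊x⌋).toNat : ℤ) = 2 * ⌊x⌋ + 1 := by
    rw [Int.toNat_of_nonneg (by omega)]; ring
  have h2 : ((⌊x⌋ + 1 - -⌊x⌋).toNat : ℝ) = 2 * (⌊x⌋ : ℝ) + 1 := by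
    have := congrArg (Int.cast : ℤ → ℝ) h1
    rw [Int.cast_natCast] at this
    rw [this]; push_cast; ring
  rw [h2]
  have := Int.floor_le x
  linarith

theorem mem_Icc_floor {n : ℤ} {x : ℝ} (h : |(n : ℝ)| ≤ x) : n ∈ Finset.Icc (-⌊x⌋) ⌊x⌋ := by
  have h1 := abs_le.mp h
  rw [Finset.mem_Icc]
  have h2 : n ≤ ⌊x⌋ := Int.le_floor.mpr h1.2
  have h3 : -n ≤ ⌊x⌋ := Int.le_floor.mpr (by push_cast; linarith)
  omega

theorem cub_bound {r s U ep : ℝ} (hep : ep = 1 ∨ ep = -1) (hr : |r| ≤ U) (hs : |s| ≤ U) :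
    |s * (r ^ 2 - ep / 4 * s ^ 2)| ≤ 5 / 4 * U ^ 3 := by
  have hU : 0 ≤ U := (abs_nonneg _).trans hr
  have h1 : r ^ 2 ≤ U ^ 2 := by rw [← sq_abs r]; exact pow_le_pow_left₀ (abs_nonneg _) hr 2
  have h2 : s ^ 2 ≤ U ^ 2 := by rw [← sq_abs s]; exact pow_le_pow_left₀ (abs_nonneg _) hs 2
  have h3 : |r ^ 2 - ep / 4 * s ^ 2| ≤ 5 / 4 * U ^ 2 := by
    rw [abs_le]
    rcases hep with rfl | rfl <;> constructor <;> nlinarith [sq_nonneg r, sq_nonneg s]
  rw [abs_mul]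
  calc |s| * |r ^ 2 - ep / 4 * s ^ 2| ≤ U * (5 / 4 * U ^ 2) :=
        mul_le_mul hs h3 (abs_nonneg _) hU
    _ = 5 / 4 * U ^ 3 := by ring

theorem tr_bound {r s r' s' U V ep : ℝ} (hep : ep = 1 ∨ ep = -1) (hr : |r| ≤ U) (hs : |s| ≤ U)
    (hr' : |r'| ≤ V) (hs' : |s'| ≤ V) :
    |s' * (r ^ 2 - ep / 4 * s ^ 2) + s * (2 * r * r' - ep / 2 * s * s')| ≤
      15 / 4 * (U ^ 2 * V) := by
  have hU : 0 ≤ U := (abs_nonneg _).trans hr
  have hV : 0 ≤ V := (abs_nonneg _).trans hr'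
  have h1 : r ^ 2 ≤ U ^ 2 := by rw [← sq_abs r]; exact pow_le_pow_left₀ (abs_nonneg _) hr 2
  have h2 : s ^ 2 ≤ U ^ 2 := by rw [← sq_abs s]; exact pow_le_pow_left₀ (abs_nonneg _) hs 2
  have h3 : |r ^ 2 - ep / 4 * s ^ 2| ≤ 5 / 4 * U ^ 2 := by
    rw [abs_le]
    rcases hep with rfl | rfl <;> constructor <;> nlinarith [sq_nonneg r, sq_nonneg s]
  have h4 : |r * r'| ≤ U * V := by rw [abs_mul]; exact mul_le_mul hr hr' (abs_nonneg _) hU
  have h5 : |s * s'| ≤ U * V := by rw [abs_mul]; exact mul_le_mul hs hs' (abs_nonneg _) hU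
  have h6 : |2 * r * r' - ep / 2 * s * s'| ≤ 5 / 2 * (U * V) := by
    have a1 := abs_le.mp h4
    have a2 := abs_le.mp h5
    rw [abs_le]
    rcases hep with rfl | rfl <;> constructor <;> nlinarith [a1.1, a1.2, a2.1, a2.2]
  refine (abs_add_le _ _).trans ?_
  rw [abs_mul, abs_mul s]
  have b1 : |s'| * |r ^ 2 - ep / 4 * s ^ 2| ≤ V * (5 / 4 * U ^ 2) :=
    mul_le_mul hs' h3 (abs_nonneg _) hV
  have b2 : |s| * |2 * r * r' - ep / 2 * s * s'| ≤ U * (5 / 2 * (U * V)) :=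
    mul_le_mul hs h6 (abs_nonneg _) hU
  calc _ ≤ V * (5 / 4 * U ^ 2) + U * (5 / 2 * (U * V)) := add_le_add b1 b2
    _ = 15 / 4 * (U ^ 2 * V) := by ring

/-- The box of level `(i,j)`. -/
noncomputable def box (i j : ℕ) : Finset Form :=
  (Finset.Icc (-⌊(20 * 2 ^ i / 8 ^ j : ℝ)⌋) ⌊(20 * 2 ^ i / 8 ^ j : ℝ)⌋) ×ˢ
  (Finset.Icc (-⌊(120 * 2 ^ i / 2 ^ j : ℝ)⌋) ⌊(120 * 2 ^ i / 2 ^ j : ℝ)⌋) ×ˢ
  (Finset.Icc (-⌊(240 * 2 ^ i * 2 ^ j : ℝ)⌋) ⌊(240 * 2 ^ i * 2 ^ j : ℝ)⌋) ×ˢ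
  (Finset.Icc (-⌊(160 * 2 ^ i * 8 ^ j : ℝ)⌋) ⌊(160 * 2 ^ i * 8 ^ j : ℝ)⌋)

theorem box_card (i j : ℕ) (h : (8 : ℝ) ^ j ≤ 20 * 2 ^ i) :
    ((box i j).card : ℝ) ≤ 2500000000 * 16 ^ i := by
  unfold box
  rw [Finset.card_product, Finset.card_product, Finset.card_product]
  push_cast
  have p2i : (1 : ℝ) ≤ 2 ^ i := one_le_pow₀ (by norm_num)
  have p2j : (1 : ℝ) ≤ 2 ^ j := one_le_pow₀ (by norm_num)
  have p8j : (1 : ℝ) ≤ 8 ^ j := one_le_pow₀ (by norm_num)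
  have h28 : (2 : ℝ) ^ j ≤ 8 ^ j := pow_le_pow_left₀ (by norm_num) (by norm_num) j
  have c1 : ((Finset.Icc (-⌊(20 * 2 ^ i / 8 ^ j : ℝ)⌋) ⌊(20 * 2 ^ i / 8 ^ j : ℝ)⌋).card : ℝ) ≤
      60 * 2 ^ i / 8 ^ j := by
    refine (int_card_le _ (by positivity)).trans ?_
    have : (1 : ℝ) ≤ 20 * 2 ^ i / 8 ^ j := by rw [le_div_iff₀ (by positivity)]; linarith
    have e : (60 : ℝ) * 2 ^ i / 8 ^ j = 3 * (20 * 2 ^ i / 8 ^ j) := by ring
    rw [e]; linarith
  have c2 : ((Finset.Icc (-⌊(120 * 2 ^ i / 2 ^ j : ℝ)⌋) ⌊(120 * 2 ^ i / 2 ^ j : ℝ)⌋).card : ℝ) ≤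
      260 * 2 ^ i / 2 ^ j := by
    refine (int_card_le _ (by positivity)).trans ?_
    have : (1 : ℝ) ≤ 20 * 2 ^ i / 2 ^ j := by
      rw [le_div_iff₀ (by positivity)]; linarith
    have e : (260 : ℝ) * 2 ^ i / 2 ^ j = 2 * (120 * 2 ^ i / 2 ^ j) + 20 * 2 ^ i / 2 ^ j := by ring
    rw [e]; linarith
  have c3 : ((Finset.Icc (-⌊(240 * 2 ^ i * 2 ^ j : ℝ)⌋) ⌊(240 * 2 ^ i * 2 ^ j : ℝ)⌋).card : ℝ) ≤
      481 * 2 ^ i * 2 ^ j := by
    refine (int_card_le _ (by positivity)).trans ?_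
    nlinarith
  have c4 : ((Finset.Icc (-⌊(160 * 2 ^ i * 8 ^ j : ℝ)⌋) ⌊(160 * 2 ^ i * 8 ^ j : ℝ)⌋).card : ℝ) ≤
      321 * 2 ^ i * 8 ^ j := by
    refine (int_card_le _ (by positivity)).trans ?_
    nlinarith
  have e16 : (16 : ℝ) ^ i = 2 ^ i * 2 ^ i * 2 ^ i * 2 ^ i := by
    rw [← mul_pow, ← mul_pow, ← mul_pow]; norm_num
  calc _ ≤ (60 * 2 ^ i / 8 ^ j : ℝ) * ((260 * 2 ^ i / 2 ^ j) * ((481 * 2 ^ i * 2 ^ j) *
        (321 * 2 ^ i * 8 ^ j))) := by
        gcongr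
    _ = 60 * 260 * 481 * 321 * (2 ^ i * 2 ^ i * 2 ^ i * 2 ^ i) := by
        field_simp
    _ ≤ 2500000000 * 16 ^ i := by
        rw [e16]
        have : (0 : ℝ) ≤ 2 ^ i * 2 ^ i * 2 ^ i * 2 ^ i := by positivity
        nlinarith

/-- The translated basis vector. -/
def sh (w1 w2 : ℤ × ℤ) (k : ℕ) : ℤ × ℤ := (w2.1 + k * w1.1, w2.2 + k * w1.2)

theorem det_sh (w1 w2 : ℤ × ℤ) (k : ℕ) : det w1 (sh w1 w2 k) = det w1 w2 := by
  unfold det sh; ring

theorem comp_mem_box {i j : ℕ} {F : Form} {w1 w2 : ℤ × ℤ} (hL : Lev i j F w1 w2) (k : ℕ)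
    (hk : k < 4 ^ j) : comp F w1 (sh w1 w2 k) ∈ box i j := by
  obtain ⟨lam, r1, r2, s1, s2, ep, hF, hl1, hl2, hdet, hm1, hm2⟩ := hL
  have pj : (0 : ℝ) < 2 ^ j := by positivity
  set U : ℝ := 2 / 2 ^ j with hU
  set V : ℝ := 4 * 2 ^ j with hV
  have br := (abs_r_le r1 r2 s1 s2 w1).trans hm1
  have bs := (abs_s_le r1 r2 s1 s2 w1).trans hm1
  have hk' : (k : ℝ) * U ≤ 2 * 2 ^ j := by
    have h1 : (k : ℝ) ≤ 4 ^ j := by exact_mod_cast hk.le
    have h2 : (4 : ℝ) ^ j = 2 ^ j * 2 ^ j := by rw [← mul_pow]; norm_num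
    calc (k : ℝ) * U ≤ 4 ^ j * U := mul_le_mul_of_nonneg_right h1 (by positivity)
      _ = 2 * 2 ^ j := by rw [h2, hU]; field_simp
  have br' : |lf r1 r2 (sh w1 w2 k)| ≤ V := by
    have e : lf r1 r2 (sh w1 w2 k) = lf r1 r2 w2 + k * lf r1 r2 w1 := by
      unfold lf sh; push_cast; ring
    rw [e]
    refine (abs_add_le _ _).trans ?_
    rw [abs_mul, abs_of_nonneg (Nat.cast_nonneg k : (0:ℝ) ≤ k)]
    have h1 := (abs_r_le r1 r2 s1 s2 w2).trans hm2
    have h2 := mul_le_mul_of_nonneg_left br (Nat.cast_nonneg k : (0 : ℝ) ≤ k)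
    linarith
  have bs' : |lf s1 s2 (sh w1 w2 k)| ≤ V := by
    have e : lf s1 s2 (sh w1 w2 k) = lf s1 s2 w2 + k * lf s1 s2 w1 := by
      unfold lf sh; push_cast; ring
    rw [e]
    refine (abs_add_le _ _).trans ?_
    rw [abs_mul, abs_of_nonneg (Nat.cast_nonneg k : (0:ℝ) ≤ k)]
    have h1 := (abs_s_le r1 r2 s1 s2 w2).trans hm2
    have h2 := mul_le_mul_of_nonneg_left bs (Nat.cast_nonneg k : (0 : ℝ) ≤ k)
    linarith
  have e8 : (8 : ℝ) ^ j = 2 ^ j * 2 ^ j * 2 ^ j := by rw [← mul_pow, ← mul_pow]; norm_num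
  have hU3 : U ^ 3 = 8 / 8 ^ j := by rw [hU, e8]; field_simp; norm_num
  have hi : (2 : ℝ) ^ (i+1) = 2 * 2 ^ i := by rw [pow_succ]; ring
  have bnd : ∀ z B : ℝ, |z| ≤ B → |lam * z| ≤ 2 * 2 ^ i * B := by
    intro z B hz
    rw [abs_mul, ← hi]
    exact mul_le_mul hl2 hz (abs_nonneg _) (by positivity)
  unfold box
  rw [Finset.mem_product, Finset.mem_product, Finset.mem_product]
  refine ⟨mem_Icc_floor ?_, mem_Icc_floor ?_, mem_Icc_floor ?_, mem_Icc_floor ?_⟩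
  · show |(evZ F w1 : ℝ)| ≤ _
    rw [hF.evZ_eq]
    refine (bnd _ _ (cub_bound hF.hep br bs)).trans (le_of_eq ?_)
    rw [hU3]; ring
  · show |(tr F w1 (sh w1 w2 k) : ℝ)| ≤ _
    rw [hF.tr_eq]
    refine (bnd _ _ (tr_bound hF.hep br bs br' bs')).trans (le_of_eq ?_)
    rw [hU, hV]; field_simp; ring
  · show |(tr F (sh w1 w2 k) w1 : ℝ)| ≤ _
    rw [hF.tr_eq]
    refine (bnd _ _ (tr_bound hF.hep br' bs' br bs)).trans (le_of_eq ?_)
    rw [hU, hV]; field_simp; ring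
  · show |(evZ F (sh w1 w2 k) : ℝ)| ≤ _
    rw [hF.evZ_eq]
    refine (bnd _ _ (cub_bound hF.hep br' bs')).trans (le_of_eq ?_)
    rw [hV, e8]; ring

theorem eight_le {i j : ℕ} {F : Form} {w1 w2 : ℤ × ℤ} (hL : Lev i j F w1 w2) (hF0 : NoZero F) :
    (8 : ℝ) ^ j ≤ 20 * 2 ^ i := by
  have hmem := comp_mem_box hL 0 (by positivity)
  obtain ⟨lam, r1, r2, s1, s2, ep, hF, hl1, hl2, hdet, hm1, hm2⟩ := hL
  unfold box at hmem
  rw [Finset.mem_product] at hmem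
  have h1 := hmem.1
  have hw : w1 ≠ 0 := by
    intro h
    rw [h] at hdet
    unfold det at hdet
    simp at hdet
  have h2 : evZ F w1 ≠ 0 := hF0 w1 hw
  have h3 : (comp F w1 (sh w1 w2 0)).1 = evZ F w1 := rfl
  rw [h3, Finset.mem_Icc] at h1
  have h4 : 1 ≤ ⌊(20 * 2 ^ i / 8 ^ j : ℝ)⌋ := by omega
  have h5 : (1 : ℝ) ≤ 20 * 2 ^ i / 8 ^ j := by
    have := Int.le_floor.mp h4
    simpa using this
  rw [le_div_iff₀ (by positivity)] at h5
  linarith

/-- The count for one level. -/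
theorem level_count (Q ρ : ℝ) (i j : ℕ) (hρ : 0 < ρ) (hρQ : Q ≤ 2 ^ i * ρ ^ 3) (P : Finset Form)
    (w1 w2 : Form → ℤ × ℤ)
    (hH : ∀ F ∈ P, HtLe Q F) (h0 : ∀ F ∈ P, NoZero F) (hL : ∀ F ∈ P, Lev i j F (w1 F) (w2 F)) :
    (P.card : ℝ) * 4 ^ j ≤ 2500000000 * 16 ^ i * (10 * (1488 * ρ ^ 2 + 8)) := by
  classical
  rcases P.eq_empty_or_nonempty with rfl | ⟨F0, hF0⟩
  · simp only [Finset.card_empty, Nat.cast_zero, zero_mul]
    positivity
  have h8 : (8 : ℝ) ^ j ≤ 20 * 2 ^ i := eight_le (hL F0 hF0) (h0 F0 hF0)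
  let Φ : Form × ℕ → Form × ((ℤ × ℤ) × (ℤ × ℤ)) := fun p =>
    (comp p.1 (w1 p.1) (sh (w1 p.1) (w2 p.1) p.2),
      (((sh (w1 p.1) (w2 p.1) p.2).2, -(w1 p.1).2), (-(sh (w1 p.1) (w2 p.1) p.2).1, (w1 p.1).1)))
  have hdet : ∀ F ∈ P, det (w1 F) (w2 F) = 1 := by
    intro F hF
    obtain ⟨_, _, _, _, _, _, _, _, _, h, _, _⟩ := hL F hF
    exact h
  have hrec : ∀ F ∈ P, ∀ k, comp (Φ (F, k)).1 (Φ (F, k)).2.1 (Φ (F, k)).2.2 = F := by
    intro F hF k
    exact comp_inv F (w1 F) (sh (w1 F) (w2 F) k) (by rw [det_sh]; exact hdet F hF)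
  have hinj : Set.InjOn Φ ((P ×ˢ Finset.range (4 ^ j) : Finset (Form × ℕ)) : Set (Form × ℕ)) := by
    rintro ⟨F, k⟩ hp ⟨F', k'⟩ hq he
    rw [Finset.mem_coe, Finset.mem_product] at hp hq
    have e1 : F = F' := by
      have a1 := hrec F hp.1 k
      have a2 := hrec F' hq.1 k'
      rw [he] at a1
      exact a1.symm.trans a2
    subst e1
    have e2 := congrArg (fun z => z.2.1.1) he
    have e3 := congrArg (fun z => z.2.2.1) he
    simp only [Φ, sh, neg_inj] at e2 e3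
    have hd := hdet F hp.1
    have hk : ((k : ℤ) - k') * (w1 F).1 = 0 := by linarith
    have hk2 : ((k : ℤ) - k') * (w1 F).2 = 0 := by linarith
    have hkk : (k : ℤ) - k' = 0 := by
      by_contra hne
      have b1 : (w1 F).1 = 0 := by
        rcases mul_eq_zero.mp hk with h | h
        · exact absurd h hne
        · exact h
      have b2 : (w1 F).2 = 0 := by
        rcases mul_eq_zero.mp hk2 with h | h
        · exact absurd h hne
        · exact h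
      unfold det at hd
      rw [b1, b2] at hd
      simp at hd
    have : k = k' := by omega
    rw [this]
  set I := (P ×ˢ Finset.range (4 ^ j)).image Φ with hI
  have hIcard : I.card = P.card * 4 ^ j := by
    rw [hI, Finset.card_image_of_injOn hinj, Finset.card_product, Finset.card_range]
  have hfst : (I.image Prod.fst) ⊆ box i j := by
    intro f hf
    obtain ⟨p, hp, rfl⟩ := Finset.mem_image.mp hf
    obtain ⟨⟨F, k⟩, hFk, rfl⟩ := Finset.mem_image.mp hp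
    rw [Finset.mem_product] at hFk
    exact comp_mem_box (hL F hFk.1) k (Finset.mem_range.mp hFk.2)
  set Bd : ℝ := 10 * (1488 * ρ ^ 2 + 8) with hBd
  have hBd0 : 0 ≤ Bd := by positivity
  have hfib : ∀ f ∈ I.image Prod.fst, (I.filter (fun p => p.1 = f)).card ≤ ⌊Bd⌋₊ := by
    intro f hf
    obtain ⟨p, hp, rfl⟩ := Finset.mem_image.mp hf
    obtain ⟨⟨F, k⟩, hFk, rfl⟩ := Finset.mem_image.mp hp
    rw [Finset.mem_product] at hFk
    obtain ⟨lam, r1, r2, s1, s2, ep, hF, hl1, hl2, hd, hm1, hm2⟩ := hL F hFk.1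
    have hNF := hF.comp (u := w1 F) (v := sh (w1 F) (w2 F) k) (by rw [det_sh]; exact hd)
    have hlam : lam ≠ 0 := by
      intro h
      rw [h, abs_zero] at hl1
      have : (0 : ℝ) < 2 ^ i := by positivity
      linarith
    have hQ : Q ≤ |lam| * ρ ^ 3 :=
      hρQ.trans (mul_le_mul_of_nonneg_right hl1 (by positivity))
    have hcard : ((I.filter (fun p => p.1 = (Φ (F, k)).1)).image Prod.snd).card =
        (I.filter (fun p => p.1 = (Φ (F, k)).1)).card := by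
      apply Finset.card_image_of_injOn
      intro p hp q hq hpq
      have e1 := (Finset.mem_filter.mp hp).2
      have e2 := (Finset.mem_filter.mp hq).2
      exact Prod.ext (e1.trans e2.symm) hpq
    rw [← hcard]
    apply Nat.le_floor
    have hget : ∀ t ∈ (I.filter (fun p => p.1 = (Φ (F, k)).1)).image Prod.snd,
        det t.1 t.2 = 1 ∧ ∃ F' ∈ P, comp (Φ (F, k)).1 t.1 t.2 = F' := by
      intro t ht
      obtain ⟨p, hp, rfl⟩ := Finset.mem_image.mp ht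
      obtain ⟨hp1, hp2⟩ := Finset.mem_filter.mp hp
      obtain ⟨⟨F', k'⟩, hFk', rfl⟩ := Finset.mem_image.mp hp1
      rw [Finset.mem_product] at hFk'
      refine ⟨?_, F', hFk'.1, ?_⟩
      · have := hdet F' hFk'.1
        rw [← det_sh (w1 F') (w2 F') k'] at this
        unfold det at this
        show (sh (w1 F') (w2 F') k').2 * (w1 F').1 - -(w1 F').2 * -(sh (w1 F') (w2 F') k').1 = 1
        linarith
      · rw [← hp2]
        exact hrec F' hFk'.1 k'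
    refine basis_count hNF hlam ρ hρ _ ?_ ?_ ?_ ?_ ?_
    · intro t ht; exact (hget t ht).1
    · intro t ht
      obtain ⟨_, F', hF', he⟩ := hget t ht
      have := (hH F' hF').1
      rw [← he] at this
      exact this.trans hQ
    · intro t ht
      obtain ⟨_, F', hF', he⟩ := hget t ht
      have := (hH F' hF').2.1
      rw [← he] at this
      exact this.trans hQ
    · intro t ht
      obtain ⟨_, F', hF', he⟩ := hget t ht
      have := (hH F' hF').2.2.1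
      rw [← he] at this
      exact this.trans hQ
    · intro t ht
      obtain ⟨_, F', hF', he⟩ := hget t ht
      have := (hH F' hF').2.2.2
      rw [← he] at this
      exact this.trans hQ
  have h1 : I.card ≤ ⌊Bd⌋₊ * (I.image Prod.fst).card :=
    Finset.card_le_mul_card_image _ _ hfib
  have h2 : (I.card : ℝ) ≤ Bd * (box i j).card := by
    calc (I.card : ℝ) ≤ ((⌊Bd⌋₊ * (I.image Prod.fst).card : ℕ) : ℝ) := by exact_mod_cast h1
      _ = (⌊Bd⌋₊ : ℝ) * (I.image Prod.fst).card := by push_cast; rfl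
      _ ≤ Bd * (box i j).card := by
          apply mul_le_mul (Nat.floor_le hBd0) _ (Nat.cast_nonneg _) hBd0
          exact_mod_cast Finset.card_le_card hfst
  have h3 : (I.card : ℝ) = (P.card : ℝ) * 4 ^ j := by rw [hIcard]; push_cast; rfl
  rw [← h3]
  calc (I.card : ℝ) ≤ Bd * (box i j).card := h2
    _ ≤ Bd * (2500000000 * 16 ^ i) := mul_le_mul_of_nonneg_left (box_card i j h8) hBd0
    _ = _ := by ring

end

section

theorem geom_le (q : ℝ) (hq : 2 ≤ q) (I : ℕ) :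
    ∑ i ∈ Finset.range (I+1), q ^ i ≤ 2 * q ^ I := by
  induction I with
  | zero => simp
  | succ n ih =>
    rw [Finset.sum_range_succ, pow_succ]
    have : 0 ≤ q ^ n := pow_nonneg (by linarith) n
    nlinarith

theorem quarter_sum (J : ℕ) : ∑ j ∈ Finset.range J, (1 : ℝ) / 4 ^ j ≤ 4 / 3 := by
  have h : ∑ j ∈ Finset.range J, (1 : ℝ) / 4 ^ j = 4 / 3 * (1 - 1 / 4 ^ J) := by
    induction J with
    | zero => simp
    | succ n ih => rw [Finset.sum_range_succ, ih, pow_succ]; field_simp; ring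
  rw [h]
  have : (0:ℝ) < 1 / 4 ^ J := by positivity
  linarith

theorem exists_lev (F : Form) (ha : F.1 ≠ 0) (hD : disc F ≠ 0) :
    ∃ t : (ℕ × ℕ) × ((ℤ × ℤ) × (ℤ × ℤ)), Lev t.1.1 t.1.2 F t.2.1 t.2.2 ∧
      (16 : ℝ) ^ t.1.1 ≤ |(disc F : ℝ)| := by
  obtain ⟨lam, r1, r2, s1, s2, ep, hF, h4, hne⟩ := exists_nf F ha hD
  have hD1 : (1 : ℝ) ≤ |(disc F : ℝ)| := by
    have : 1 ≤ |disc F| := Int.one_le_abs hD
    exact_mod_cast this
  have hl1 : 1 ≤ |lam| := by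
    by_contra h
    have h' : |lam| < 1 := not_le.mp h
    have : |lam| ^ 4 < 1 := pow_lt_one₀ (abs_nonneg _) h' (by norm_num)
    linarith
  obtain ⟨i, hi1, hi2⟩ := exists_nat_pow_near hl1 (one_lt_two)
  obtain ⟨w1, w2, hdet, hpos, hle, hprod⟩ := exists_reduced hF.hdet
  set a := nm r1 r2 s1 s2 w1 with ha'
  set b := nm r1 r2 s1 s2 w2 with hb'
  have hapos : 0 < a := Real.sqrt_pos.mpr hpos
  have hab : a ≤ b := Real.sqrt_le_sqrt hle
  have ha2 : a ^ 2 = nsq r1 r2 s1 s2 w1 := nm_sq _ _ _ _ _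
  have hb2 : b ^ 2 = nsq r1 r2 s1 s2 w2 := nm_sq _ _ _ _ _
  have hprod' : a * b ≤ 6 / 5 := by
    have h1 : (a * b) ^ 2 ≤ (6 / 5) ^ 2 := by
      rw [mul_pow, ha2, hb2]; linarith
    exact le_of_sq_le_sq h1 (by norm_num)
  have ha65 : a ^ 2 ≤ 6 / 5 := by nlinarith
  have ha6 : a ≤ 6 / 5 := by nlinarith
  have h2a : 1 ≤ 2 / a := by rw [le_div_iff₀ hapos]; linarith
  obtain ⟨j, hj1, hj2⟩ := exists_nat_pow_near h2a (one_lt_two)
  have p2j : (0 : ℝ) < 2 ^ j := by positivity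
  refine ⟨((i, j), (w1, w2)), ⟨lam, r1, r2, s1, s2, ep, hF, hi1, hi2.le, hdet, ?_, ?_⟩, ?_⟩
  · show a ≤ 2 / 2 ^ j
    rw [le_div_iff₀ hapos] at hj1
    rw [le_div_iff₀ p2j]
    linarith
  · show b ≤ 2 * 2 ^ j
    rw [div_lt_iff₀ hapos, pow_succ] at hj2
    -- 2 < 2^j * 2 * a
    have h1 : 1 < 2 ^ j * a := by linarith
    have h2 : b ≤ b * (2 ^ j * a) := le_mul_of_one_le_right (hapos.le.trans hab) h1.le
    have h3 : b * (2 ^ j * a) = 2 ^ j * (a * b) := by ring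
    rw [h3] at h2
    have h4 : 2 ^ j * (a * b) ≤ 2 ^ j * (6 / 5) := mul_le_mul_of_nonneg_left hprod' p2j.le
    linarith
  · show (16 : ℝ) ^ i ≤ _
    rw [← h4]
    have : (16 : ℝ) ^ i = (2 ^ i) ^ 4 := by rw [← pow_mul, mul_comm, pow_mul]; norm_num
    rw [this]
    exact pow_le_pow_left₀ (by positivity) hi1 4

theorem total (Q Y : ℝ) (hQ : 0 < Q) (hY : 1 ≤ Y) (P : Finset Form)
    (hH : ∀ F ∈ P, HtLe Q F) (h0 : ∀ F ∈ P, NoZero F) (ha : ∀ F ∈ P, F.1 ≠ 0)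
    (hD : ∀ F ∈ P, disc F ≠ 0) (hDY : ∀ F ∈ P, |(disc F : ℝ)| ≤ Y) :
    (P.card : ℝ) ≤ 100000000000000 * (Q ^ (2 / 3 : ℝ) * Y ^ (5 / 6 : ℝ) + Y) := by
  classical
  obtain ⟨I, hI1, hI2⟩ := exists_nat_pow_near hY (by norm_num : (1 : ℝ) < 16)
  set J : ℕ := 20 * 2 ^ I + 1 with hJ
  have hex : ∀ F : Form, ∃ t : (ℕ × ℕ) × ((ℤ × ℤ) × (ℤ × ℤ)), F ∈ P →
      (Lev t.1.1 t.1.2 F t.2.1 t.2.2 ∧ t.1.1 < I + 1 ∧ t.1.2 < J) := by
    intro F
    by_cases hF : F ∈ P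
    · obtain ⟨t, ht, ht16⟩ := exists_lev F (ha F hF) (hD F hF)
      refine ⟨t, fun _ => ⟨ht, ?_, ?_⟩⟩
      · have h1 : (16 : ℝ) ^ t.1.1 < 16 ^ (I + 1) :=
          lt_of_le_of_lt (ht16.trans (hDY F hF)) hI2
        exact (pow_lt_pow_iff_right₀ (by norm_num)).mp h1
      · have h1 : (16 : ℝ) ^ t.1.1 < 16 ^ (I + 1) :=
          lt_of_le_of_lt (ht16.trans (hDY F hF)) hI2
        have h2 : t.1.1 < I + 1 := (pow_lt_pow_iff_right₀ (by norm_num)).mp h1
        have h8 := eight_le ht (h0 F hF)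
        have h8' : 8 ^ t.1.2 ≤ 20 * 2 ^ t.1.1 := by exact_mod_cast h8
        have h3 : 2 ^ t.1.1 ≤ 2 ^ I := Nat.pow_le_pow_right (by norm_num) (by omega)
        have h4 : t.1.2 < 8 ^ t.1.2 := Nat.lt_pow_self (by norm_num)
        omega
    · exact ⟨((0, 0), ((0, 0), (0, 0))), fun h => absurd h hF⟩
  choose t ht using hex
  have hcard : P.card = ∑ x ∈ Finset.range (I + 1) ×ˢ Finset.range J,
      (P.filter (fun F => (t F).1 = x)).card := by
    apply Finset.card_eq_sum_card_fiberwise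
    intro F hF
    have := ht F hF
    rw [Finset.mem_coe, Finset.mem_product, Finset.mem_range, Finset.mem_range]
    exact ⟨this.2.1, this.2.2⟩
  set q : ℝ := (16 : ℝ) ^ (5 / 6 : ℝ) with hq
  set R : ℝ := Q ^ (2 / 3 : ℝ) with hR
  have hR0 : 0 ≤ R := Real.rpow_nonneg hQ.le _
  have hlev : ∀ x ∈ Finset.range (I + 1) ×ˢ Finset.range J,
      ((P.filter (fun F => (t F).1 = x)).card : ℝ) ≤
        (25000000000 * (1488 * (R * q ^ x.1) + 8 * 16 ^ x.1)) * (1 / 4 ^ x.2) := by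
    rintro ⟨i, j⟩ _
    set z : ℝ := (2 : ℝ) ^ i with hz
    have hzpos : 0 < z := by positivity
    set ρ : ℝ := (Q / z) ^ (1 / 3 : ℝ) with hρ
    have hQz : 0 < Q / z := by positivity
    have hρpos : 0 < ρ := Real.rpow_pos_of_pos hQz _
    have hρ3 : ρ ^ 3 = Q / z := by
      rw [hρ, ← Real.rpow_natCast, ← Real.rpow_mul hQz.le]
      norm_num
    have hρ2 : ρ ^ 2 = R / z ^ (2 / 3 : ℝ) := by
      rw [hρ, ← Real.rpow_natCast, ← Real.rpow_mul hQz.le, hR, ← Real.div_rpow hQ.le hzpos.le]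
      norm_num
    have h16 : (16 : ℝ) ^ i = z ^ (4 : ℝ) := by
      rw [show (4 : ℝ) = ((4 : ℕ) : ℝ) by norm_num, Real.rpow_natCast, hz, ← pow_mul, mul_comm,
        pow_mul]
      norm_num
    have hqi : q ^ i = z ^ (10 / 3 : ℝ) := by
      rw [hq, Real.rpow_pow_comm (by norm_num), h16, ← Real.rpow_mul hzpos.le]
      norm_num
    have h16ρ : 16 ^ i * ρ ^ 2 = R * q ^ i := by
      rw [h16, hρ2, hqi, mul_div_assoc', mul_comm (z ^ (4 : ℝ)) R, mul_div_assoc,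
        ← Real.rpow_sub hzpos]
      norm_num
    have hlc := level_count Q ρ i j hρpos (by rw [hρ3]; field_simp; exact le_rfl)
      (P.filter (fun F => (t F).1 = (i, j))) (fun F => (t F).2.1) (fun F => (t F).2.2)
      (fun F hF => hH F (Finset.mem_filter.mp hF).1)
      (fun F hF => h0 F (Finset.mem_filter.mp hF).1)
      (fun F hF => by
        obtain ⟨h1, h2⟩ := Finset.mem_filter.mp hF
        have h3 := (ht F h1).1
        rw [h2] at h3
        exact h3)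
    have h4 : (0 : ℝ) < 4 ^ j := by positivity
    rw [mul_one_div, le_div_iff₀ h4]
    refine hlc.trans (le_of_eq ?_)
    show _ = 25000000000 * (1488 * (R * q ^ i) + 8 * 16 ^ i)
    rw [← h16ρ]
    ring
  have hq16 : q ^ I ≤ Y ^ (5 / 6 : ℝ) := by
    rw [hq, Real.rpow_pow_comm (by norm_num)]
    exact Real.rpow_le_rpow (by positivity) hI1 (by norm_num)
  have hq2 : 2 ≤ q := by
    have h1 : (16 : ℝ) ^ (1 / 4 : ℝ) ≤ q :=
      Real.rpow_le_rpow_of_exponent_le (by norm_num) (by norm_num)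
    have h2 : (16 : ℝ) ^ (1 / 4 : ℝ) = 2 := by
      rw [show (16 : ℝ) = 2 ^ (4 : ℝ) by norm_num, ← Real.rpow_mul (by norm_num)]
      norm_num
    linarith
  have hg1 := geom_le q hq2 I
  have hg2 := geom_le 16 (by norm_num) I
  have hg3 := quarter_sum J
  have hY0 : 0 ≤ Y ^ (5 / 6 : ℝ) := Real.rpow_nonneg (by linarith) _
  calc (P.card : ℝ) = ∑ x ∈ Finset.range (I + 1) ×ˢ Finset.range J,
        ((P.filter (fun F => (t F).1 = x)).card : ℝ) := by rw [hcard]; push_cast; rfl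
    _ ≤ ∑ x ∈ Finset.range (I + 1) ×ˢ Finset.range J,
        (25000000000 * (1488 * (R * q ^ x.1) + 8 * 16 ^ x.1)) * (1 / 4 ^ x.2) :=
        Finset.sum_le_sum hlev
    _ = (∑ i ∈ Finset.range (I + 1), 25000000000 * (1488 * (R * q ^ i) + 8 * 16 ^ i)) *
        ∑ j ∈ Finset.range J, (1 : ℝ) / 4 ^ j := by
        rw [Finset.sum_product, Finset.sum_mul_sum]
    _ = (25000000000 * (1488 * (R * ∑ i ∈ Finset.range (I + 1), q ^ i) +
        8 * ∑ i ∈ Finset.range (I + 1), (16 : ℝ) ^ i)) *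
        ∑ j ∈ Finset.range J, (1 : ℝ) / 4 ^ j := by
        rw [← Finset.mul_sum, Finset.sum_add_distrib, ← Finset.mul_sum, ← Finset.mul_sum,
          ← Finset.mul_sum]
    _ ≤ (25000000000 * (1488 * (R * (2 * Y ^ (5 / 6 : ℝ))) + 8 * (2 * Y))) * (4 / 3) := by
        have a1 : R * ∑ i ∈ Finset.range (I + 1), q ^ i ≤ R * (2 * Y ^ (5 / 6 : ℝ)) :=
          mul_le_mul_of_nonneg_left (by linarith) hR0
        have a2 : ∑ i ∈ Finset.range (I + 1), (16 : ℝ) ^ i ≤ 2 * Y := by linarith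
        apply mul_le_mul _ hg3 (Finset.sum_nonneg (fun j _ => by positivity)) (by positivity)
        linarith
    _ ≤ 100000000000000 * (R * Y ^ (5 / 6 : ℝ) + Y) := by
        have : 0 ≤ R * Y ^ (5 / 6 : ℝ) := by positivity
        nlinarith

end

/-- The set counted by `N_{n,v,c}(Q)`. -/
def polySet (n : ℕ) (v c Q : ℝ) : Set (Polynomial ℤ) :=
  {P | P.natDegree = n ∧ Irreducible (P.map (Int.castRingHom ℚ)) ∧
    (∀ i : ℕ, |(P.coeff i : ℝ)| ≤ Q) ∧ 0 < |(P.discr : ℝ)| ∧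
    |(P.discr : ℝ)| ≤ c * Q ^ (2 * (n : ℝ) - 2 - 2 * v)}

/-- Cubic polynomials of height at most `Q` with nonzero discriminant at most `Y`. -/
def cubSet (Q Y : ℝ) : Set (Polynomial ℤ) :=
  {P | P.natDegree = 3 ∧ Irreducible (P.map (Int.castRingHom ℚ)) ∧
    (∀ i : ℕ, |(P.coeff i : ℝ)| ≤ Q) ∧ 0 < |(P.discr : ℝ)| ∧ |(P.discr : ℝ)| ≤ Y}

theorem fin_of_bound {α : Type*} (S : Set α) (B : ℝ)
    (h : ∀ T : Finset α, (T : Set α) ⊆ S → (T.card : ℝ) ≤ B) :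
    S.Finite ∧ (S.ncard : ℝ) ≤ B := by
  have hfin : S.Finite := by
    by_contra hinf
    obtain ⟨T, hT, hc⟩ := Set.Infinite.exists_subset_card_eq hinf (⌊B⌋₊ + 1)
    have h1 := h T hT
    rw [hc] at h1
    push_cast at h1
    have h2 := Nat.lt_floor_add_one B
    linarith
  refine ⟨hfin, ?_⟩
  rw [Set.ncard_eq_toFinset_card S hfin]
  exact h _ (by simp)

/-- The coefficient vector of a cubic polynomial. -/
def cf (P : Polynomial ℤ) : Form := (P.coeff 3, P.coeff 2, P.coeff 1, P.coeff 0)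

theorem cf_inj {P R : Polynomial ℤ} (hP : P.natDegree = 3) (hR : R.natDegree = 3)
    (h : cf P = cf R) : P = R := by
  unfold cf at h
  simp only [Prod.mk.injEq] at h
  obtain ⟨h3, h2, h1, h0⟩ := h
  ext i
  rcases Nat.lt_or_ge i 4 with hi | hi
  · interval_cases i <;> assumption
  · rw [Polynomial.coeff_eq_zero_of_natDegree_lt (by omega),
      Polynomial.coeff_eq_zero_of_natDegree_lt (by omega)]

theorem disc_cf {P : Polynomial ℤ} (hP : P.natDegree = 3) : disc (cf P) = P.discr := by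
  have hd : P.degree = 3 := by
    have hne : P ≠ 0 := by rintro rfl; simp at hP
    rw [Polynomial.degree_eq_natDegree hne, hP]; rfl
  rw [Polynomial.discr_of_degree_eq_three hd]
  rfl

theorem lead_ne {P : Polynomial ℤ} (hP : P.natDegree = 3) : P.coeff 3 ≠ 0 := by
  have hne : P ≠ 0 := by rintro rfl; simp at hP
  have := Polynomial.leadingCoeff_ne_zero.mpr hne
  rwa [Polynomial.leadingCoeff, hP] at this

theorem noZero_cf {P : Polynomial ℤ} (hP : P.natDegree = 3)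
    (hI : Irreducible (P.map (Int.castRingHom ℚ))) : NoZero (cf P) := by
  rintro ⟨x, y⟩ hu h0
  have hinj : Function.Injective (Int.castRingHom ℚ) := Int.cast_injective
  unfold evZ cf at h0
  simp only at h0
  by_cases hy : y = 0
  · subst hy
    have h1 : P.coeff 3 * x ^ 3 = 0 := by linarith
    rcases mul_eq_zero.mp h1 with h | h
    · exact lead_ne hP h
    · have hx : x = 0 := by simpa using h
      subst hx
      exact hu rfl
  · have hyq : (y : ℚ) ≠ 0 := by exact_mod_cast hy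
    have hroot : (P.map (Int.castRingHom ℚ)).IsRoot ((x : ℚ) / y) := by
      rw [Polynomial.IsRoot, Polynomial.eval_eq_sum_range,
        Polynomial.natDegree_map_eq_of_injective hinj, hP]
      simp only [Finset.sum_range_succ, Finset.sum_range_zero, Polynomial.coeff_map, zero_add,
        pow_zero, mul_one, pow_one, eq_intCast]
      have h1 : (P.coeff 3 : ℚ) * x ^ 3 + P.coeff 2 * x ^ 2 * y + P.coeff 1 * x * y ^ 2 +
          P.coeff 0 * y ^ 3 = 0 := by exact_mod_cast h0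
      field_simp
      linarith
    have hdeg := Polynomial.degree_eq_one_of_irreducible_of_root hI hroot
    have hnd : (P.map (Int.castRingHom ℚ)).natDegree = 3 := by
      rw [Polynomial.natDegree_map_eq_of_injective hinj, hP]
    have hdeg' : (P.map (Int.castRingHom ℚ)).natDegree = 1 :=
      Polynomial.natDegree_eq_of_degree_eq_some hdeg
    rw [hnd] at hdeg'
    norm_num at hdeg'

theorem cub_count (Q Y : ℝ) (hQ : 0 < Q) (hY : 0 ≤ Y) :
    (cubSet Q Y).Finite ∧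
    ((cubSet Q Y).ncard : ℝ) ≤ 100000000000000 * (Q ^ (2 / 3 : ℝ) * Y ^ (5 / 6 : ℝ) + Y) := by
  classical
  apply fin_of_bound
  intro T hT
  have hinj : Set.InjOn cf (T : Set (Polynomial ℤ)) := by
    intro P hP R hR h
    exact cf_inj (hT hP).1 (hT hR).1 h
  have hcard : (T.image cf).card = T.card := Finset.card_image_of_injOn hinj
  rcases T.eq_empty_or_nonempty with rfl | ⟨P0, hP0⟩
  · simp only [Finset.card_empty, Nat.cast_zero]
    have := Real.rpow_nonneg hQ.le (2 / 3 : ℝ)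
    have := Real.rpow_nonneg hY (5 / 6 : ℝ)
    positivity
  have hone : ∀ P ∈ T, disc (cf P) ≠ 0 := by
    intro P hP h
    have h1 := (hT hP).2.2.2.1
    rw [← disc_cf (hT hP).1, h] at h1
    simp at h1
  have hle : ∀ P ∈ T, |(disc (cf P) : ℝ)| ≤ Y := by
    intro P hP
    rw [disc_cf (hT hP).1]
    exact (hT hP).2.2.2.2
  have hY1 : 1 ≤ Y := by
    have h1 : 1 ≤ |disc (cf P0)| := Int.one_le_abs (hone P0 hP0)
    have h2 : (1 : ℝ) ≤ |(disc (cf P0) : ℝ)| := by exact_mod_cast h1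
    exact h2.trans (hle P0 hP0)
  rw [← hcard]
  refine total Q Y hQ hY1 (T.image cf) ?_ ?_ ?_ ?_ ?_
  · intro F hF
    obtain ⟨P, hP, rfl⟩ := Finset.mem_image.mp hF
    have h := (hT hP).2.2.1
    exact ⟨h 3, h 2, h 1, h 0⟩
  · intro F hF
    obtain ⟨P, hP, rfl⟩ := Finset.mem_image.mp hF
    exact noZero_cf (hT hP).1 (hT hP).2.1
  · intro F hF
    obtain ⟨P, hP, rfl⟩ := Finset.mem_image.mp hF
    exact lead_ne (hT hP).1
  · intro F hF
    obtain ⟨P, hP, rfl⟩ := Finset.mem_image.mp hF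
    exact hone P hP
  · intro F hF
    obtain ⟨P, hP, rfl⟩ := Finset.mem_image.mp hF
    exact hle P hP

theorem main (c : ℝ) (hc : 0 < c) : ∃ C : ℝ, 0 < C ∧ ∀ v : ℝ, 0 ≤ v → ∀ Q : ℝ, 1 ≤ Q →
    (polySet 3 v c Q).Finite ∧ ((polySet 3 v c Q).ncard : ℝ) ≤ C * Q ^ (4 - 5 / 3 * v) := by
  have hc56 : 0 < c ^ (5 / 6 : ℝ) := Real.rpow_pos_of_pos hc _
  refine ⟨100000000000000 * (c ^ (5 / 6 : ℝ) + c), by positivity, ?_⟩
  intro v hv Q hQ
  have hQ0 : 0 < Q := by linarith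
  set Y : ℝ := c * Q ^ (2 * ((3 : ℕ) : ℝ) - 2 - 2 * v) with hY
  have hYpos : 0 < Y := mul_pos hc (Real.rpow_pos_of_pos hQ0 _)
  have hset : polySet 3 v c Q = cubSet Q Y := rfl
  rw [hset]
  obtain ⟨h1, h2⟩ := cub_count Q Y hQ0 hYpos.le
  refine ⟨h1, h2.trans ?_⟩
  have e1 : Q ^ (2 / 3 : ℝ) * Y ^ (5 / 6 : ℝ) = c ^ (5 / 6 : ℝ) * Q ^ (4 - 5 / 3 * v) := by
    rw [hY, Real.mul_rpow hc.le (Real.rpow_nonneg hQ0.le _), ← Real.rpow_mul hQ0.le,
      mul_left_comm, ← Real.rpow_add hQ0]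
    congr 2
    push_cast
    ring
  have e2 : Y ≤ c * Q ^ (4 - 5 / 3 * v) := by
    rw [hY]
    apply mul_le_mul_of_nonneg_left _ hc.le
    apply Real.rpow_le_rpow_of_exponent_le hQ
    push_cast
    linarith
  rw [e1]
  linarith

theorem result :
    (∀ c : ℝ, 0 < c → ∃ C : ℝ, 0 < C ∧ ∀ v : ℝ, 0 ≤ v → ∀ Q : ℝ, 1 ≤ Q →
      (polySet 3 v c Q).Finite ∧
      ((polySet 3 v c Q).ncard : ℝ) ≤ C * Q ^ (4 - 5 / 3 * v)) ∧
    (∀ Q Y : ℝ, 0 < Q → 0 ≤ Y → (cubSet Q Y).Finite ∧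
      ((cubSet Q Y).ncard : ℝ) ≤
        100000000000000 * (Q ^ (2 / 3 : ℝ) * Y ^ (5 / 6 : ℝ) + Y)) :=
  ⟨main, cub_count⟩

end Pool.Agent.Results.MP_3ef321_nt.Cubic
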